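import Pool.Agent.L7h1.OL.Fin
import Pool.Agent.L7h1.OL.Mod4
import Pool.Agent.L7h60.OL.Ana2
import Pool.Agent.L7h60.OL.Up
import Pool.Agent.R425.P.Lt
import Pool.Agent.R425.P.Pr
import Pool.Agent.Y255.LT.Fin
import Pool.Agent.Y288.G.Perr
import Pool.Agent.Y852.GS.Mins

/-!
# The Birch and Swinnerton-Dyer formula modulo an odd prime over abelian extensions of prime power degree

`W` is the minimal equation of an elliptic curve `E` over `ℚ` and `l` is an odd prime, such that `E` has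
no point of order `l` modulo `r` for some prime `r` that does not divide `6 l Δ`, and such that the periods
of the newform of `E` are, up to a factor prime to `l`, in the period lattice of `E`.
`K ⊂ ℚ(ζ_m)` is a number field of degree `l^n`, with `m` a product of distinct primes `q ≡ 1 mod l` that do
not divide `Δ`, in which the primes that divide `6 l Δ` split completely.  For `F = ℚ` and for `F = K` let
`x(F) = L(E/F, 1) √|Δ_F| #E(F)_tors² / Ω`.  The formula of Birch and Swinnerton-Dyer modulo `l` says that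
`x(F)` is a rational number with denominator prime to `l`, and that it is a unit at `l` if and only if the
rank of `E(F)` is zero, `Ш(E/F)[l^∞] = 0` and the Tamagawa numbers are prime to `l`.

Let `A` be the statement that `l` does not divide `#E(𝔽_q)` for all primes `q` that ramify in `K`.  We prove
that `x(ℚ)` and `x(K)` have denominators prime to `l`, that

* `x(K)` is a unit at `l` if and only if `x(ℚ)` is a unit at `l` and `A` holds;
* if `A` holds, then `rank E(K) = 0` and `Ш(E/K)[l^∞] = 0` if and only if `rank E(ℚ) = 0` and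
  `Ш(E/ℚ)[l^∞] = 0`; the implication from `K` to `ℚ` holds without `A`,

and that `l` divides the Tamagawa product over `ℚ` if and only if it divides the Tamagawa product over
`K`.  So, if `A` holds, the formula modulo `l` over `ℚ` is equivalent to the formula modulo `l` over `K`.

The results for `l = 2` in this folder use the cubic field of the points of order two.  Here the Galois
representation `E[l]` is arbitrary (apart from the existence of `r`), and the descent is with cocycles: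
an element of the `l`-Selmer group over `K` that is invariant under an element `σ` of order `l` of
`Gal(K/ℚ)` modulo an induction comes from `ℚ`; at the primes that ramify, tame inertia acts on `E[l]`
trivially, its image in `H¹` is described by a commutator relation with the Frobenius automorphism,
which has no eigenvalue one on `E[l]` under `A`.  On the analytic side the product of the Gauss sums
and of the twisted sums of modular symbols over the group of characters of `K` is congruent to the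
power of the value for the trivial character, which is computed with the relation of Hecke.
-/

set_option autoImplicit false

open NumberField NumberField.InfinitePlace IsDedekindDomain WeierstrassCurve MeasureTheory
open UpperHalfPlane MatrixGroups CongruenceSubgroup

namespace Pool.Agent.Results.MP_f50388_nt.FormulaModOddPrime

open scoped Classical

open Pool.Agent.TH841.NF.D (Sha)

/-- The curve given by the equation of `W` over the ring `R`. -/
abbrev base (W : WeierstrassCurve ℤ) (R : Type) [CommRing R] : WeierstrassCurve R :=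
  W.map (Int.castRingHom R)

/-- The number of the affine points `(x, y)` over the ring `R`.  (So `#E(𝔽_q) = pts W 𝔽_q + 1`.) -/
noncomputable def pts (W : WeierstrassCurve ℤ) (R : Type) [CommRing R] : ℕ :=
  Nat.card {P : R × R // (base W R).toAffine.Equation P.1 P.2}

section

variable {K : Type} [Field K] [NumberField K]

/-- `a_v = N v + 1 - #W(k_v)`, the points over the residue field `k_v` counted with the point at
infinity. -/
noncomputable def a (W : WeierstrassCurve ℤ) (v : HeightOneSpectrum (𝓞 K)) : ℤ :=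
  (Ideal.absNorm v.asIdeal : ℤ) - pts W (𝓞 K ⧸ v.asIdeal)

/-- The Euler factor of `L(W/K, s)` at `v` : `(1 - a_v N v^(-s) + N v^(1 - 2 s))⁻¹` if the
discriminant is a unit at `v`, and `(1 - a_v N v^(-s))⁻¹` otherwise. -/
noncomputable def factor (W : WeierstrassCurve ℤ) (s : ℂ) (v : HeightOneSpectrum (𝓞 K)) : ℂ :=
  (1 - (a W v : ℂ) * (Ideal.absNorm v.asIdeal : ℂ) ^ (-s) +
    if ((W.Δ : ℤ) : 𝓞 K) ∈ v.asIdeal then 0 else (Ideal.absNorm v.asIdeal : ℂ) ^ (1 - 2 * s))⁻¹

/-- The equation is minimal at the finite place `v` of `K`: no change of variables over `K` that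
keeps the coefficients integral at `v` decreases the valuation of the discriminant. -/
def MinimalAt (W : WeierstrassCurve ℤ) (v : HeightOneSpectrum (𝓞 K)) : Prop :=
  ∀ C : VariableChange K, v.valuation K (C • base W K).a₁ ≤ 1 →
    v.valuation K (C • base W K).a₂ ≤ 1 → v.valuation K (C • base W K).a₃ ≤ 1 →
    v.valuation K (C • base W K).a₄ ≤ 1 → v.valuation K (C • base W K).a₆ ≤ 1 →
    v.valuation K (C • base W K).Δ ≤ v.valuation K (base W K).Δ

/-- `E⁰(K_v)`, the group of the points of `W` over the completion `K_v` with nonsingular reduction: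
the points `(x, y)` where `x` is not integral, or one of the partial derivatives of
`y² + a₁ x y + a₃ y - x³ - a₂ x² - a₄ x - a₆` is a unit at `(x, y)`, and the point at infinity. -/
noncomputable def nonsing (W : WeierstrassCurve ℤ) (v : HeightOneSpectrum (𝓞 K)) :
    AddSubgroup (base W (v.adicCompletion K)).toAffine.Point :=
  AddSubgroup.closure {P | ∀ x y h, P = Affine.Point.some x y h →
    1 < Valued.v x ∨ Valued.v (W.a₁ * y - (3 * x ^ 2 + 2 * W.a₂ * x + W.a₄)) = 1 ∨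
      Valued.v (2 * y + W.a₁ * x + W.a₃) = 1}

/-- The Tamagawa number `c_v = [E(K_v) : E⁰(K_v)]` of a minimal equation. -/
noncomputable def c (W : WeierstrassCurve ℤ) (v : HeightOneSpectrum (𝓞 K)) : ℕ :=
  (nonsing W v).index

end

section

variable (K : Type) [Field K] [NumberField K]

/-- The product of the Tamagawa numbers. -/
noncomputable def Tam (W : WeierstrassCurve ℤ) : ℕ := ∏ᶠ v : HeightOneSpectrum (𝓞 K), c W v

/-- The `l`-primary part of the Tate-Shafarevich group over `K`. -/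
def ShaL (l : ℕ) (W : WeierstrassCurve ℤ) : Set (Sha (base W K)) := {x | ∃ n : ℕ, l ^ n • x = 0}

/-- The torsion subgroup of the group of the points over `K`. -/
def tors (W : WeierstrassCurve ℤ) : Set (base W K).toAffine.Point := {P | ∃ n : ℕ, 0 < n ∧ n • P = 0}

/-- The rank of the group of the points over `K`. -/
noncomputable def rank (W : WeierstrassCurve ℤ) : ℕ := Module.finrank ℤ (base W K).toAffine.Point

end

/-- `4 x³ + b₂ x² + 2 b₄ x + b₆ = (2 y + a₁ x + a₃)²`, where `b₂ = a₁² + 4 a₂`,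
`b₄ = 2 a₄ + a₁ a₃`, `b₆ = a₃² + 4 a₆`. -/
def cubic (W : WeierstrassCurve ℤ) {R : Type} [CommRing R] (x : R) : R :=
  4 * x ^ 3 + W.b₂ * x ^ 2 + 2 * W.b₄ * x + W.b₆

/-- `∫_{W(ℝ)} |ω|` with `ω = dx / (2 y + a₁ x + a₃)`, as an integral over `x`: two real points lie
over each `x` with `cubic x > 0`. -/
noncomputable def realPeriod (W : WeierstrassCurve ℤ) : ℝ :=
  2 * ∫ x in {x : ℝ | 0 < cubic W x}, 1 / √(cubic W x)

/-- `2 ∫_{W(ℂ)} |ω ∧ ω̄|`, where `|ω ∧ ω̄| = du dv` in a local parameter `z = u + i v` with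
`dz = ω`, as an integral over `x`: two points lie over a general `x`, and `|ω ∧ ω̄|` is the area
element of the plane of `x` divided by `|cubic x|`. -/
noncomputable def complexPeriod (W : WeierstrassCurve ℤ) : ℝ := 2 * (2 * ∫ x : ℂ, 1 / ‖cubic W x‖)

/-- The global period of an equation that is minimal at all finite places. -/
noncomputable def Omega (K : Type) [Field K] [NumberField K] (W : WeierstrassCurve ℤ) : ℝ :=
  realPeriod W ^ nrRealPlaces K * complexPeriod W ^ nrComplexPlaces K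

/-- `x` is the value `L(E/K, 1) √|Δ_K| (#E(K)_tors)² / Ω`, where `L` is the entire function given by
the Euler product of `W` over `K` for `Re s > 3/2`. -/
def HasValue (K : Type) [Field K] [NumberField K] (W : WeierstrassCurve ℤ) (x : ℚ) : Prop :=
  ∃ L : ℂ → ℂ, Differentiable ℂ L ∧
    (∀ s : ℂ, 3 / 2 < s.re → HasProd (factor (K := K) W s) (L s)) ∧
    L 1 * √|(discr K : ℝ)| * (Nat.card (tors K W) : ℂ) ^ 2 = x * Omega K W

/-- **The formula of Birch and Swinnerton-Dyer modulo `l`** for `W` over `K` (the equation being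
minimal): the `L`-function is entire, `x = L(E/K, 1) √|Δ_K| (#E(K)_tors)² / Ω` is a rational number with
denominator prime to `l`, and its numerator is prime to `l` if and only if the rank is zero, the
`l`-primary part of the Tate-Shafarevich group is zero and the product of the Tamagawa numbers is prime
to `l`.  (The conjecture says that `x = #Ш Tam` if the rank is zero, and `x = 0` otherwise.) -/
def BSDMod (l : ℕ) (K : Type) [Field K] [NumberField K] (W : WeierstrassCurve ℤ) : Prop :=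
  ∃ x : ℚ, HasValue K W x ∧ ¬ l ∣ x.den ∧
    (¬ (l : ℤ) ∣ x.num ↔ rank K W = 0 ∧ ShaL K l W = {0} ∧ ¬ l ∣ Tam K W)

section modular

variable {N : ℕ}

/-- The `n`-th coefficient of the cusp form `f = ∑ a_n q^n`. -/
noncomputable def co (f : CuspForm (Gamma0 N : Subgroup (GL (Fin 2) ℝ)) 2) (n : ℕ) : ℂ :=
  (qExpansion 1 f).coeff n

/-- `2 π i ∫_(i∞)^z f(w) dw = ∑ a_n / n e^(2 π i n z)`. -/
noncomputable def prim (f : CuspForm (Gamma0 N : Subgroup (GL (Fin 2) ℝ)) 2) (z : ℂ) : ℂ :=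
  ∑' n : ℕ, co f n / n * Complex.exp (2 * Real.pi * Complex.I * n * z)

/-- The cusp form `f` of weight two for `Γ₀(N)` is the newform of `W`: it is a normalised eigenform
of the Hecke operators and of the Fricke involution, with real coefficients that satisfy the bounds
of Hasse, `N` has the same prime divisors as the discriminant, and `a_p = p + 1 - #W(𝔽_p)`. -/
structure IsNewform (W : WeierstrassCurve ℤ) (N : ℕ)
    (f : CuspForm (Gamma0 N : Subgroup (GL (Fin 2) ℝ)) 2) : Prop where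
  one : co f 1 = 1
  real : ∀ n, (co f n).im = 0
  mul : ∀ m n : ℕ, Nat.Coprime m n → co f (m * n) = co f m * co f n
  pow : ∀ p j : ℕ, p.Prime → co f (p ^ (j + 2)) = co f p * co f (p ^ (j + 1)) -
      (if p ∣ N then 0 else (p : ℂ) * co f (p ^ j))
  good : ∀ p : ℕ, p.Prime → ¬ p ∣ N → ‖co f p‖ ≤ 2 * Real.sqrt p
  bad : ∀ p : ℕ, p.Prime → p ∣ N → ‖co f p‖ ≤ 1
  fricke : ∃ w : ℝ, (w = 1 ∨ w = -1) ∧ ∀ τ τ' : ℍ, (τ' : ℂ) * ((N : ℂ) * (τ : ℂ)) = -1 →
    f τ' = -(w : ℂ) * (N : ℂ) * (τ : ℂ) ^ 2 * f τ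
  level : ∀ p : ℕ, p.Prime → (p ∣ N ↔ (p : ℤ) ∣ W.Δ)
  coef : ∀ p : ℕ, p.Prime → co f p = (p : ℂ) - (pts W (ZMod p) : ℂ)

end modular

section proof

open Pool.Agent.Y702

variable {N : ℕ} [NeZero N]

omit [NeZero N] in
lemma isForm {W : WeierstrassCurve ℤ} {f : CuspForm (Gamma0 N : Subgroup (GL (Fin 2) ℝ)) 2}
    (h : IsNewform W N f) : G.IsForm W N f :=
  ⟨h.one, h.real, h.mul, h.pow, h.good, h.bad, h.fricke, h.level, h.coef⟩

lemma c_eq {K : Type} [Field K] [NumberField K] (W : WeierstrassCurve ℤ)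
    (v : HeightOneSpectrum (𝓞 K)) : c W v = Pool.Agent.R425.G.cv W v := rfl

lemma cubic_eq (W : WeierstrassCurve ℤ) {R : Type} [CommRing R] (x : R) :
    cubic W x = G.cubic W x := rfl

lemma sha_iff {K : Type} [Field K] [NumberField K] (l : ℕ) (W : WeierstrassCurve ℤ) :
    (∀ s : Sha (base W K), l • s = 0 → s = 0) ↔ ShaL K l W = {0} := by
  constructor
  · intro h
    have key : ∀ (j : ℕ) (x : Sha (base W K)), l ^ j • x = 0 → x = 0 := by
      intro j
      induction j with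
      | zero => intro x hx; rw [pow_zero, one_nsmul] at hx; exact hx
      | succ j ih =>
        intro x hx
        rw [pow_succ, mul_nsmul] at hx
        exact ih x (h _ hx)
    ext x
    constructor
    · rintro ⟨k, hk⟩
      exact key k x hk
    · rintro rfl
      exact ⟨0, nsmul_zero _⟩
  · intro h s hs
    have h1 : s ∈ ShaL K l W := ⟨1, by rw [pow_one]; exact hs⟩
    rw [h] at h1
    exact h1

/-- the two forms of the algebraic side -/
lemma side_iff {K : Type} [Field K] [NumberField K] (l : ℕ) (W : WeierstrassCurve ℤ)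
    (hW : W.Δ ≠ 0) :
    (rank K W = 0 ∧ ShaL K l W = {0}) ↔ (Finite (base W K).toAffine.Point ∧
      ∀ s : Sha (base W K), l • s = 0 → s = 0) := by
  rw [sha_iff]
  have h : rank K W = 0 ↔ Finite (base W K).toAffine.Point := Pool.Agent.R425.G.rank_iff W hW
  rw [h]

/-- the value is unique -/
lemma value_uniq {K : Type} [Field K] [NumberField K] (W : WeierstrassCurve ℤ)
    (hO : Omega K W ≠ 0) {x y : ℚ} (hx : HasValue K W x) (hy : HasValue K W y) : x = y := by
  obtain ⟨L1, d1, p1, e1⟩ := hx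
  obtain ⟨L2, d2, p2, e2⟩ := hy
  have h : L1 = L2 := Pool.Agent.R425.G.L_uniq (W := W) (K := K) d1 d2 p1 p2
  rw [h, e2] at e1
  have h1 : (Omega K W : ℂ) ≠ 0 := by exact_mod_cast hO
  have h2 := mul_right_cancel₀ h1 e1
  exact_mod_cast h2.symm

/-- the value in terms of integers -/
lemma value_of {K : Type} [Field K] [NumberField K] (W : WeierstrassCurve ℤ) {l : ℕ} (hl : l.Prime)
    {H : ℂ → ℂ} (hHd : Differentiable ℂ H)
    (hHp : ∀ s : ℂ, 3 / 2 < s.re → HasProd (factor (K := K) W s) (H s)) {r : ℝ} (hr : H 1 = r)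
    {D M' : ℤ} (hD : ¬ (l : ℤ) ∣ D) (hT : ¬ l ∣ Nat.card (tors K W))
    (hval : |(D : ℝ)| * (|r| * √|(discr K : ℝ)|) = |(M' : ℝ)| * Omega K W) :
    ∃ x : ℚ, HasValue K W x ∧ ¬ l ∣ x.den ∧ (¬ (l : ℤ) ∣ x.num ↔ ¬ (l : ℤ) ∣ M') := by
  have hlp := Nat.prime_iff_prime_int.1 hl
  obtain ⟨ε, hε, hεr⟩ : ∃ ε : ℤ, (ε = 1 ∨ ε = -1) ∧ r = ε * |r| := by
    rcases le_total 0 r with h | h
    · exact ⟨1, Or.inl rfl, by rw [abs_of_nonneg h]; push_cast; ring⟩
    · exact ⟨-1, Or.inr rfl, by rw [abs_of_nonpos h]; push_cast; ring⟩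
  have hDo' : ¬ (l : ℤ) ∣ |D| := by rwa [dvd_abs]
  have hD0 : (|D| : ℤ) ≠ 0 := by
    intro h
    rw [h] at hDo'
    exact hDo' (dvd_zero _)
  have hD0' : ((|D| : ℤ) : ℝ) ≠ 0 := by exact_mod_cast hD0
  obtain ⟨h1, h2⟩ := Pool.Agent.L7h1.OL.frac_l hl
    (ε * |M'| * (Nat.card (tors K W) : ℤ) ^ 2) |D| hDo'
  have hreal : r * √|(discr K : ℝ)| * (Nat.card (tors K W) : ℝ) ^ 2 =
      ((ε * |M'| * (Nat.card (tors K W) : ℤ) ^ 2 : ℤ) : ℝ) / ((|D| : ℤ) : ℝ) * Omega K W := by
    rw [div_mul_eq_mul_div, eq_div_iff hD0', hεr]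
    push_cast
    linear_combination (ε : ℝ) * (Nat.card (tors K W) : ℝ) ^ 2 * hval
  refine ⟨((ε * |M'| * (Nat.card (tors K W) : ℤ) ^ 2 : ℤ) : ℚ) / (|D| : ℤ), ⟨H, hHd, hHp, ?_⟩,
    h1, ?_⟩
  · rw [hr]
    have h5 := congrArg (fun y : ℝ => (y : ℂ)) hreal
    simp only [Complex.ofReal_mul, Complex.ofReal_pow, Complex.ofReal_natCast, Complex.ofReal_div,
      Complex.ofReal_intCast] at h5
    rw [h5, Rat.cast_div, Rat.cast_intCast, Rat.cast_intCast]
  · rw [h2, hlp.dvd_mul, hlp.dvd_mul, dvd_abs]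
    have h3 : ¬ (l : ℤ) ∣ (Nat.card (tors K W) : ℤ) ^ 2 := by
      intro h
      exact hT (Int.natCast_dvd_natCast.1 (hlp.dvd_of_dvd_pow h))
    have h4 : ¬ (l : ℤ) ∣ ε := by
      intro h
      have h5 : IsUnit ε := by
        rcases hε with rfl | rfl
        · exact isUnit_one
        · exact isUnit_one.neg
      exact hlp.not_isUnit (isUnit_of_dvd_unit h h5)
    tauto

/-- the real period and the lattice -/
lemma lattice (W : WeierstrassCurve ℤ) (hΔ : W.Δ ≠ 0) (Λ : PeriodPair)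
    (hg₂ : Λ.g₂ = (W.c₄ : ℂ) / 12) (hg₃ : Λ.g₃ = (W.c₆ : ℂ) / 216) :
    0 < realPeriod W ∧ ∀ x ∈ Λ.lattice, ∃ a : ℤ, 2 * x.re = a * realPeriod W := by
  have h1 : (1728 : ℝ) * W.Δ = (W.c₄ : ℝ) ^ 3 - (W.c₆ : ℝ) ^ 2 := by
    exact_mod_cast congrArg (fun x : ℤ => (x : ℝ)) W.c_relation
  have h3 : ((W.c₄ : ℝ) / 12) ^ 3 - 27 * ((W.c₆ : ℝ) / 216) ^ 2 = (W.Δ : ℝ) := by
    linear_combination (-1 / 1728 : ℝ) * h1
  have hg₂' : Λ.g₂ = (((W.c₄ : ℝ) / 12 : ℝ) : ℂ) := by rw [hg₂]; push_cast; rfl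
  have hg₃' : Λ.g₃ = (((W.c₆ : ℝ) / 216 : ℝ) : ℂ) := by rw [hg₃]; push_cast; rfl
  rcases lt_or_gt_of_ne hΔ with hneg | hpos
  · obtain ⟨Op, Om, hOp, hOm, hlat⟩ := Pool.Agent.Y255.LT.s_lat Λ ((W.c₄ : ℝ) / 12)
      ((W.c₆ : ℝ) / 216) hg₂' hg₃' (by rw [h3]; exact_mod_cast hneg)
    have hreal : realPeriod W = 2 * Op := by
      unfold realPeriod
      simp_rw [cubic_eq]
      rw [Pool.Agent.Y288.G.s_perr W hneg Λ Op Om hOp hOm hg₂ hg₃ hlat]
    refine ⟨by rw [hreal]; positivity, fun x hx => ?_⟩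
    obtain ⟨a, b, -, rfl⟩ := (hlat x).1 hx
    refine ⟨a, ?_⟩
    rw [hreal]
    simp
    ring
  · obtain ⟨Op, Om, hOp, hOm, hlat⟩ := Pool.Agent.R425.P.latP Λ ((W.c₄ : ℝ) / 12)
      ((W.c₆ : ℝ) / 216) hg₂' hg₃' (by rw [h3]; exact_mod_cast hpos)
    have hreal : realPeriod W = 2 * Op := by
      unfold realPeriod
      simp_rw [cubic_eq]
      rw [Pool.Agent.R425.P.s_perrP W Λ Op Om hOp hOm hg₂ hg₃ hlat]
    refine ⟨by rw [hreal]; positivity, fun x hx => ?_⟩
    obtain ⟨a, b, rfl⟩ := (hlat x).1 hx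
    refine ⟨a, ?_⟩
    rw [hreal]
    simp
    ring

/-- a Galois extension of odd degree is totally real -/
lemma real_of_odd (K : Type) [Field K] [NumberField K] [IsGalois ℚ K]
    (h : Odd (Module.finrank ℚ K)) :
    nrComplexPlaces K = 0 ∧ nrRealPlaces K = Module.finrank ℚ K := by
  have h1 := IsUnramifiedAtInfinitePlaces_of_odd_finrank (k := ℚ) (K := K) h
  have h2 : nrComplexPlaces K = 0 := by
    rw [nrComplexPlaces, Fintype.card_eq_zero_iff]
    refine ⟨fun ⟨w, hw⟩ => ?_⟩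
    have h3 := h1.isUnramified w
    rcases isUnramified_iff.1 h3 with h4 | h4
    · exact not_isReal_iff_isComplex.2 hw h4
    · have h5 : (w.comap (algebraMap ℚ K)).IsReal := by
        rw [Subsingleton.elim (w.comap (algebraMap ℚ K)) Rat.infinitePlace]
        exact Rat.isReal_infinitePlace
      exact not_isReal_iff_isComplex.2 h4 h5
  refine ⟨h2, ?_⟩
  have h3 := card_add_two_mul_card_eq_rank K
  omega

lemma side3 {p q r p' q' r' : Prop} (h : (p ∧ q) ↔ (p' ∧ q')) (hr : r ↔ r') :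
    (p ∧ q ∧ r) ↔ (p' ∧ q' ∧ r') := by
  rw [← and_assoc, ← and_assoc, h, hr]

/-- a subfield of a cyclotomic field is abelian -/
lemma comm_of_cyc (m : ℕ) [NeZero m] (M : Type) [Field M] [NumberField M]
    [IsCyclotomicExtension {m} ℚ M] (K : IntermediateField ℚ M) (σ τ : K ≃ₐ[ℚ] K) :
    σ * τ = τ * σ := by
  have h1 : IsAbelianGalois ℚ M := IsCyclotomicExtension.isAbelianGalois {m} ℚ M
  have h2 : IsAbelianGalois ℚ K := IsAbelianGalois.tower_bot ℚ K M
  exact h2.toIsMulCommutative.is_comm.comm σ τ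

/-- primes congruent to `1` modulo `l` do not divide `6 l` -/
lemma not_bad {l : ℕ} (hl : l.Prime) (hl2 : l ≠ 2) {q : ℕ} (hq : q.Prime) (h1 : q % l = 1)
    {D : ℤ} (h2 : ¬ (q : ℤ) ∣ D) : ¬ (q : ℤ) ∣ 6 * l * D := by
  intro h
  have hlodd : Odd l := hl.odd_of_ne_two hl2
  have hqp := Nat.prime_iff_prime_int.1 hq
  have hl3 : 3 ≤ l := by
    have := hl.two_le
    omega
  -- `q ≥ 2 l + 1`
  have h5 : 5 < q := by
    have h7 := Nat.div_add_mod q l
    rw [h1] at h7
    have h8 : q / l ≠ 0 := by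
      intro h9
      rw [h9, mul_zero, zero_add] at h7
      exact hq.one_lt.ne h7
    have h9 : q / l ≠ 1 := by
      intro h9
      rw [h9, mul_one] at h7
      have h10 : Even q := by
        rw [← h7]
        exact hlodd.add_one
      have h11 := hq.eq_two_or_odd'.resolve_right (Nat.not_odd_iff_even.2 h10)
      omega
    have h10 : 2 ≤ q / l := (Nat.two_le_iff _).2 ⟨h8, h9⟩
    have h11 : l * 2 ≤ l * (q / l) := Nat.mul_le_mul_left _ h10
    omega
  rcases hqp.dvd_or_dvd h with h3 | h3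
  · rcases hqp.dvd_or_dvd h3 with h4 | h4
    · have h6 : q ∣ 6 := by exact_mod_cast h4
      have h7 := Nat.le_of_dvd (by norm_num) h6
      have h8 : q = 6 := by omega
      rw [h8] at hq
      exact absurd hq (by norm_num)
    · have h6 : q ∣ l := by exact_mod_cast h4
      rw [(Nat.prime_dvd_prime_iff_eq hq hl).1 h6, Nat.mod_self] at h1
      exact absurd h1 (by norm_num)
  · exact h2 h3

end proof

/-- **Main theorem.** Let `l` be an odd prime.  Let `W` be a Weierstrass equation with integral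
coefficients and discriminant `Δ ≠ 0`, minimal at all primes; let `f` be the newform of `W`, of a level
`N` with the same prime divisors as `Δ`; let `Λ` be the period lattice of the differential
`dx / (2 y + a₁ x + a₃)` of `W` (the lattice with `g₂ = c₄ / 12`, `g₃ = c₆ / 216`), and assume that `c`
times the periods of `2 π i f(z) dz` on `Γ₀(N)` are in `Λ` for some `c` prime to `l` (the Manin constant
is prime to `l`).  Assume that `l` does not divide `#E(𝔽_r)` for some prime `r` that does not divide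
`6 l Δ`.  Let `m` be squarefree, with all prime divisors congruent to `1` modulo `l` and prime to `Δ`, let
`M` be the `m`-th cyclotomic field and `K` a subfield of degree `l^n` such that the places that divide
`6 l Δ` have a residue field of prime order, that is, the primes that divide `6 l Δ` split completely in
`K`.  Let `A` be the statement that `l` does not divide `#E(𝔽_q)` for all primes `q` that divide the
discriminant of `K`. -/
theorem result (l : ℕ) (hl : l.Prime) (hl2 : l ≠ 2) {N : ℕ} [NeZero N]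
    (W : WeierstrassCurve ℤ) (hΔ : W.Δ ≠ 0)
    (hmin : ∀ p : HeightOneSpectrum (𝓞 ℚ), MinimalAt W p)
    (f : CuspForm (Gamma0 N : Subgroup (GL (Fin 2) ℝ)) 2) (hf : IsNewform W N f)
    (Λ : PeriodPair) (hg₂ : Λ.g₂ = (W.c₄ : ℂ) / 12) (hg₃ : Λ.g₃ = (W.c₆ : ℂ) / 216)
    (hman : ∃ c : ℤ, ¬ (l : ℤ) ∣ c ∧ ∀ γ ∈ Gamma0 N, ∀ z : ℍ,
      (c : ℂ) * (prim f ((γ • z : ℍ) : ℂ) - prim f (z : ℂ)) ∈ Λ.lattice)
    (r : ℕ) (hr : r.Prime) (hrΔ : ¬ (r : ℤ) ∣ 6 * l * W.Δ) (hrl : ¬ l ∣ pts W (ZMod r) + 1)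
    (m : ℕ) [NeZero m] (hsq : Squarefree m)
    (hm : ∀ q : ℕ, q.Prime → q ∣ m → q % l = 1 ∧ ¬ (q : ℤ) ∣ W.Δ)
    (M : Type) [Field M] [NumberField M] [IsCyclotomicExtension {m} ℚ M]
    (K : IntermediateField ℚ M) (n : ℕ) (hn : Module.finrank ℚ K = l ^ n)
    (hsplit : ∀ v : HeightOneSpectrum (𝓞 K), ((6 * l * W.Δ : ℤ) : 𝓞 K) ∈ v.asIdeal →
      (Ideal.absNorm v.asIdeal).Prime)
    (A : Prop) (hA : A ↔ ∀ q : ℕ, q.Prime → (q : ℤ) ∣ discr K → ¬ l ∣ pts W (ZMod q) + 1) :
    ((∀ v : HeightOneSpectrum (𝓞 K), MinimalAt W v) ∧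
      {v : HeightOneSpectrum (𝓞 K) | c W v ≠ 1}.Finite ∧
      {p : HeightOneSpectrum (𝓞 ℚ) | c W p ≠ 1}.Finite ∧
      ¬ l ∣ Nat.card (tors K W) ∧ ¬ l ∣ Nat.card (tors ℚ W) ∧
      (¬ l ∣ Tam K W ↔ ¬ l ∣ Tam ℚ W)) ∧
    (∃ x₀ x : ℚ, HasValue ℚ W x₀ ∧ HasValue K W x ∧ ¬ l ∣ x₀.den ∧ ¬ l ∣ x.den ∧
      (¬ (l : ℤ) ∣ x.num ↔ ¬ (l : ℤ) ∣ x₀.num ∧ A)) ∧
    ((rank K W = 0 ∧ ShaL K l W = {0}) → rank ℚ W = 0 ∧ ShaL ℚ l W = {0}) ∧
    (A → ((rank K W = 0 ∧ ShaL K l W = {0}) ↔ (rank ℚ W = 0 ∧ ShaL ℚ l W = {0}))) ∧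
    (A → (BSDMod l ℚ W ↔ BSDMod l K W)) := by
  have hlodd : Odd l := hl.odd_of_ne_two hl2
  have hlp := Nat.prime_iff_prime_int.1 hl
  have hgal : IsGalois ℚ K := Pool.Agent.Y702.L.gal_F m M K
  have hfI := isForm hf
  have hunr : ∀ (p : ℕ), p.Prime → ¬ p ∣ m → ∀ v : HeightOneSpectrum (𝓞 K), (p : 𝓞 K) ∈ v.asIdeal →
      v.valuation K (p : K) = WithZero.exp (-1 : ℤ) :=
    fun p hp hpm v hv => Pool.Agent.Y702.Fn.unr m M K hp hpm v hv
  -- the primes that divide `m` do not divide `6 l Δ`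
  have hm6 : ∀ q : ℕ, q.Prime → q ∣ m → ¬ (q : ℤ) ∣ 6 * l * W.Δ := fun q hq hqm =>
    not_bad hl hl2 hq (hm q hq hqm).1 (hm q hq hqm).2
  have hm2 : ∀ q : ℕ, q.Prime → q ∣ m → ¬ (q : ℤ) ∣ 2 * W.Δ := by
    intro q hq hqm h
    refine hm6 q hq hqm ?_
    have : (6 : ℤ) * l * W.Δ = 2 * W.Δ * (3 * l) := by ring
    rw [this]
    exact h.mul_right _
  have htor := Pool.Agent.L7h1.OL.no_tors_W W hl hl2 hr hΔ hrΔ hrl
  have htorK := Pool.Agent.L7h1.OL.no_tors_K Pool.Agent.L7h65.OL.s_NT W hl hΔ htor K n hn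
  have htK : ¬ l ∣ Nat.card (tors K W) :=
    Pool.Agent.L7h1.OL.tors_ok W Pool.Agent.L7h65.OL.s_NT hl hΔ htorK
  have htQ : ¬ l ∣ Nat.card (tors ℚ W) :=
    Pool.Agent.L7h1.OL.tors_ok W Pool.Agent.L7h65.OL.s_NT hl hΔ
      ((Pool.Agent.L7h1.OL.NT_dec l _).1 htor)
  -- the places
  have hbelow6 : ∀ v : HeightOneSpectrum (𝓞 K), ((6 * l * W.Δ : ℤ) : 𝓞 K) ∈ v.asIdeal →
      (∀ x : ℚ, v.valuation K (algebraMap ℚ K x) = (v.under (𝓞 ℚ)).valuation ℚ x) ∧
      (Ideal.absNorm v.asIdeal).Prime := by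
    intro v h2
    refine ⟨?_, hsplit v h2⟩
    set q := Pool.Agent.H921R2.TatePole.below v with hq
    have h5 : ((q : ℕ) : ℤ) ∣ 6 * l * W.Δ := by
      have h6 : (((6 * l * W.Δ).natAbs : ℕ) : 𝓞 K) ∈ v.asIdeal := by
        rcases Int.natAbs_eq (6 * l * W.Δ) with h8 | h8
        · rw [h8] at h2
          rw [Int.cast_natCast] at h2
          exact h2
        · rw [h8, Int.cast_neg, neg_mem_iff, Int.cast_natCast] at h2
          exact h2
      rw [Pool.Agent.H82R3.EK.natCast_mem_iff] at h6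
      exact Int.natCast_dvd.2 h6
    have hqm : ¬ (q : ℕ) ∣ m := fun h => (hm6 _ q.2 h) h5
    exact Pool.Agent.Y702.G.val_eq v _ rfl q
      (hunr _ q.2 hqm v ((Pool.Agent.H82R3.EK.natCast_mem_iff v _).2 dvd_rfl))
  have hbelow : ∀ v : HeightOneSpectrum (𝓞 K), ((W.Δ : ℤ) : 𝓞 K) ∈ v.asIdeal →
      (∀ x : ℚ, v.valuation K (algebraMap ℚ K x) = (v.under (𝓞 ℚ)).valuation ℚ x) ∧
      (Ideal.absNorm v.asIdeal).Prime := by
    intro v hv
    refine hbelow6 v ?_
    push_cast
    exact Ideal.mul_mem_left _ _ hv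
  have hTam : ¬ l ∣ Tam K W ↔ ¬ l ∣ Tam ℚ W :=
    Pool.Agent.L7h1.OL.tam_iffl W hl hΔ m hm2 hunr hbelow
  have hminK : ∀ v : HeightOneSpectrum (𝓞 K), MinimalAt W v := by
    intro v
    by_cases hv : ((W.Δ : ℤ) : 𝓞 K) ∈ v.asIdeal
    · obtain ⟨h1, h2⟩ := hbelow v hv
      exact Pool.Agent.Y852.GS.s_mins W K v _ h1 h2 (hmin _)
    · intro C h1 h2 h3 h4 h6
      have e : (base W K).Δ = (W.Δ : K) := by
        rw [WeierstrassCurve.map_Δ]
        simp
      rw [e, Pool.Agent.R425.G.unit_of W v hv]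
      exact Pool.Agent.Y702.Fn.disc_le v _ h1 h2 h3 h4 h6
  -- the lattice
  obtain ⟨hOp, hlat⟩ := lattice W hΔ Λ hg₂ hg₃
  obtain ⟨hC0, hR0⟩ := real_of_odd K (by rw [hn]; exact hlodd.pow)
  have hOK : Omega K W = realPeriod W ^ Module.finrank ℚ K := by
    unfold Omega
    rw [hC0, hR0, pow_zero, mul_one]
  have hOQ : Omega ℚ W = realPeriod W := by
    unfold Omega
    rw [nrRealPlaces_eq_one_of_finrank_eq_one (Module.finrank_self ℚ),
      nrComplexPlaces_eq_zero_of_finrank_eq_one (Module.finrank_self ℚ), pow_one, pow_zero, mul_one]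
  have hOK0 : Omega K W ≠ 0 := by rw [hOK]; exact pow_ne_zero _ hOp.ne'
  have hOQ0 : Omega ℚ W ≠ 0 := by rw [hOQ]; exact hOp.ne'
  -- the periods of the form
  obtain ⟨cc, hcc, hman'⟩ := hman
  have hrN : ¬ r ∣ N := by
    intro h
    exact hrΔ (((hfI.level r hr).1 h).mul_left _)
  have hmodd : Odd m := by
    rw [← Nat.not_even_iff_odd, even_iff_two_dvd]
    intro h
    exact hm2 2 Nat.prime_two h (Dvd.intro _ rfl)
  have hcoN : Nat.Coprime m N := by
    rw [Nat.coprime_iff_gcd_eq_one]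
    by_contra h
    obtain ⟨q, hq, hq2⟩ := Nat.exists_prime_and_dvd h
    have h3 := (hfI.level q hq).1 (hq2.trans (Nat.gcd_dvd_right _ _))
    exact (hm q hq (hq2.trans (Nat.gcd_dvd_left _ _))).2 h3
  obtain ⟨s, t, ht, hval0, hrest⟩ := Pool.Agent.L7h60.OL.s_ANA2 l hl hl2 W hΔ N f hfI
    (realPeriod W) hOp (Λ.lattice : Set ℂ) hlat cc hcc (by
      rintro x ⟨γ, rfl⟩
      have h1 := Pool.Agent.Y18.BSD.per_spec f (Additive.toMul γ) UpperHalfPlane.I
      have h2 := hman' _ (Additive.toMul γ).2 UpperHalfPlane.I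
      have h3 : prim f ((((Additive.toMul γ : Gamma0 N) : SL(2, ℤ)) • UpperHalfPlane.I : ℍ) : ℂ) -
          prim f (UpperHalfPlane.I : ℂ) = Pool.Agent.Y18.BSD.per f (Additive.toMul γ) := by
        have h4 : prim f ((((Additive.toMul γ : Gamma0 N) : SL(2, ℤ)) • UpperHalfPlane.I : ℍ) : ℂ) =
            prim f (UpperHalfPlane.I : ℂ) + Pool.Agent.Y18.BSD.per f (Additive.toMul γ) := h1
        rw [h4]
        ring
      rw [h3] at h2
      exact h2) r hr hrN hrl
  obtain ⟨H, hHd, hHp, him, D, M', hDo, hMo, hval⟩ := hrest m hsq hmodd hcoN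
    (fun q hq hqm => (hm q hq hqm).1) M K n hn (by
      intro v hv
      refine hsplit v ?_
      have e : ((6 * l * W.Δ : ℤ) : 𝓞 K) = ((3 * l : ℤ) : 𝓞 K) * ((2 * W.Δ : ℤ) : 𝓞 K) := by
        push_cast
        ring
      rw [e]
      exact Ideal.mul_mem_left _ _ hv)
  have hMo' : ¬ (l : ℤ) ∣ M' ↔ ¬ (l : ℤ) ∣ s ∧ A := hMo.trans (and_congr_right fun _ => hA.symm)
  -- the value over `ℚ`
  obtain ⟨x₀, hx₀, hx₀d, hx₀n⟩ : ∃ x₀ : ℚ, HasValue ℚ W x₀ ∧ ¬ l ∣ x₀.den ∧
      (¬ (l : ℤ) ∣ x₀.num ↔ ¬ (l : ℤ) ∣ s) := by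
    obtain ⟨L₀, hL1, hL2, hL3⟩ := Pool.Agent.R425.G.exists_LQ hfI
    have ht0 : t ≠ 0 := by
      rintro rfl
      exact ht (dvd_zero _)
    refine value_of W hl hL1 hL2 (r := (s : ℝ) / t * realPeriod W) ?_ ht htQ ?_
    · have ht1 : (t : ℂ) ≠ 0 := by exact_mod_cast ht0
      have h3 : L₀ 1 = (s : ℂ) / t * realPeriod W := by
        rw [hL3, div_mul_eq_mul_div, eq_div_iff ht1, mul_comm, hval0]
      rw [h3]
      push_cast
      ring
    · have ht1 : (t : ℝ) ≠ 0 := by exact_mod_cast ht0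
      rw [hOQ]
      simp only [Rat.numberField_discr, Int.cast_one, abs_one, Real.sqrt_one, mul_one]
      rw [abs_mul, abs_div, abs_of_pos hOp, ← mul_assoc,
        mul_div_cancel₀ _ (abs_ne_zero.2 ht1)]
  -- the value over `K`
  obtain ⟨x, hx, hxd, hxn⟩ : ∃ x : ℚ, HasValue K W x ∧ ¬ l ∣ x.den ∧
      (¬ (l : ℤ) ∣ x.num ↔ ¬ (l : ℤ) ∣ M') := by
    have hre : H 1 = ((H 1).re : ℂ) := Complex.ext rfl (by rw [him]; rfl)
    have hnorm : ‖H 1‖ = |(H 1).re| := by
      rw [hre, Complex.norm_real, Real.norm_eq_abs, Complex.ofReal_re]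
    refine value_of W hl hHd hHp hre hDo htK ?_
    rw [hOK, ← hval, hnorm]
  have hxx : ¬ (l : ℤ) ∣ x.num ↔ ¬ (l : ℤ) ∣ x₀.num ∧ A := by
    rw [hxn, hMo', hx₀n]
  -- the algebraic side
  have hup : (rank K W = 0 ∧ ShaL K l W = {0}) → rank ℚ W = 0 ∧ ShaL ℚ l W = {0} := by
    rw [side_iff l W hΔ, side_iff l W hΔ]
    exact Pool.Agent.L7h1.OL.alg_upl Pool.Agent.L7h65.OL.s_NT Pool.Agent.L7h60.OL.s_UP W hl hl2 hΔ htor K n hn
  have hfr : Module.finrank ℚ K = l ^ n := hn
  have halg : A → ((rank K W = 0 ∧ ShaL K l W = {0}) ↔ (rank ℚ W = 0 ∧ ShaL ℚ l W = {0})) := by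
    intro hA'
    rw [side_iff l W hΔ, side_iff l W hΔ]
    refine Pool.Agent.L7h1.OL.alg_iffl Pool.Agent.L7h1.OL.alg Pool.Agent.L7h65.OL.s_NT Pool.Agent.L7h60.OL.s_UP W hl hl2
      hΔ htor K n hn ?_ ?_
    · intro σ τ
      exact comm_of_cyc m M K σ τ
    · intro p hp
      have hpp := Nat.prime_iff_prime_int.1 hp
      unfold Pool.Agent.L7h1.OL.LocOk
      split_ifs with hbad
      · intro v hv
        have h6 : (p : ℤ) ∣ 6 * l * W.Δ := by
          rw [Pool.Agent.L7h1.OL.short_disc] at hbad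
          have e : (6 : ℤ) * l * (-(6 ^ 12 / 16) * W.Δ) =
              6 * l * W.Δ * -(6 * 6 * 6 * 6 * 6 * 6 * 6 * 6 * (9 * 9)) := by
            norm_num
            ring
          rw [e] at hbad
          rcases hpp.dvd_or_dvd hbad with h | h
          · exact h
          · rw [dvd_neg] at h
            have h7 : (p : ℤ) ∣ 6 ^ 12 := h.trans ⟨16, by norm_num⟩
            have h8 := hpp.dvd_of_dvd_pow h7
            have e2 : (6 : ℤ) * l * W.Δ = 6 * (l * W.Δ) := by ring
            rw [e2]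
            exact h8.mul_right _
        have hpm : ¬ p ∣ m := fun h => hm6 p hp h h6
        refine ⟨hunr p hp hpm v hv, ?_⟩
        have h7 : ((6 * l * W.Δ : ℤ) : 𝓞 K) ∈ v.asIdeal := by
          obtain ⟨k, hk⟩ := h6
          rw [hk]
          push_cast
          exact Ideal.mul_mem_right _ _ hv
        have h8 := hsplit v h7
        have h9 := (Pool.Agent.H82R3.EK.natCast_mem_iff v p).1 hv
        have h10 := (Pool.Agent.H82R3.EK.natCast_mem_iff v _).1 (Ideal.absNorm_mem v.asIdeal)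
        have hb := (Pool.Agent.H921R2.TatePole.below v).2
        rw [← (Nat.prime_dvd_prime_iff_eq hb hp).1 h9, (Nat.prime_dvd_prime_iff_eq hb h8).1 h10]
      · by_cases hd : (p : ℤ) ∣ discr K
        · right
          have hF : Fact p.Prime := ⟨hp⟩
          have h6' : (6 : ZMod p) ≠ 0 := by
            intro h6
            apply hbad
            have h7 : (p : ℤ) ∣ 6 := by
              rw [← ZMod.intCast_zmod_eq_zero_iff_dvd]
              exact_mod_cast h6
            rw [mul_assoc]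
            exact h7.mul_right _
          rw [Pool.Agent.L7h1.OL.pts_eq W h6']
          exact hA.1 hA' p hp hd
        · left
          intro v hv
          exact Pool.Agent.R425.unr_of_disc K hp hd v hv
  refine ⟨⟨hminK, Pool.Agent.R425.G.cv_fin W hΔ, Pool.Agent.R425.G.cv_fin W hΔ, htK, htQ,
    hTam⟩, ⟨x₀, x, hx₀, hx, hx₀d, hxd, hxx⟩, hup, halg, ?_⟩
  intro hA'
  have ha := halg hA'
  have hxx' : ¬ (l : ℤ) ∣ x.num ↔ ¬ (l : ℤ) ∣ x₀.num := hxx.trans (and_iff_left hA')
  have h3 := side3 ha hTam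
  constructor
  · rintro ⟨y, hy, hyd, hyn⟩
    rw [value_uniq W hOQ0 hy hx₀] at hyn
    exact ⟨x, hx, hxd, hxx'.trans (hyn.trans h3.symm)⟩
  · rintro ⟨y, hy, hyd, hyn⟩
    rw [value_uniq W hOK0 hy hx] at hyn
    exact ⟨x₀, hx₀, hx₀d, hxx'.symm.trans (hyn.trans h3)⟩

end Pool.Agent.Results.MP_f50388_nt.FormulaModOddPrime
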