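import Pool.Agent.L7h3.QD.Fin2
import Pool.Agent.L7h3.QD.FS

/-!
# The elliptic curve `y² = x³ - x` over the quartic extensions `ℚ(i)(D^(1/4))`, with the exact proportion

`K` is a number field with an isomorphism `e` of the ring `ℤ[i]` of Gaussian integers with its ring
of integers (so `K = ℚ(i)`), and `E : y² = x³ - x`.  The class: `D ∈ ℤ[i]` is squarefree,
`D ≡ 1 mod 2 + 2i`, `N(D) ≡ 5 mod 8` (every squarefree `D` of norm `5` modulo `8` is a unit times an
element of the class).  `D` is *good* if it is in the class and is not a product `d d'`,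
`d ≡ 1 mod 2 + 2i`, `d, d' ≠ 1`, with `d'` a square modulo every prime divisor of `d` and `d` a square
modulo every prime divisor of `d'`.

1. The proportion of the good `D` in the class, ordered by norm, tends to
   `∏_{i ≥ 0} (1 - 2^{-(2 i + 1)}) = 0.4194...`.
2. Let `D` be good, and let `t ∈ ℤ[i]` be any element of odd norm such that `D` is a nonresidue modulo all
   the prime divisors of `t` that do not divide `D` (for instance `t = 1`; infinitely many primes `t`
   are possible).  Let `F = K(η)`, `η⁴ = D t²` or `η⁴ = - D t²`.  Then `[F : K] = 4`, and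

   * `L(E/F, s)` extends analytically to `Re s > 1/2`, and `L(E/F, 1) ≠ 0`;
   * `E(F)` is finite;
   * the 2-primary part of `Ш(E/F)` is finite and killed by `4`.

As `F/K` is abelian and `K` is the field of complex multiplication of `E`, the `p`-primary part of
`Ш(E/F)` is finite for all the primes `p ≠ 2` by the theorem of Rubin, which excludes `p = 2` (this is not
formalized here).

Proof.  `L(E/F, s)` is the product of the L-functions over `K` of the four curves `y² = x³ - δ^k x`,
`δ = η⁴`, `k = 0, 1, 2, 3`, up to the factors above `2`, which are regular and not zero for `Re s > 1/2`;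
the points and the 2-primary part of the Tate-Shafarevich group over `F` come from those of the four
curves over `K`.  For `k = 0, 2` (`y² = x³ - x`, `y² = x³ - δ² x`) the central values are treated by the
library of helper699.  For `k` odd these are the curves `y² = x³ ± (∏ π_i ^ e_i) x` with odd
`∑ e_i (N π_i - 1) / 4`.  One of the four 2-adic classes of these is in the library; new are the other
three:

* positive sign, `∑ e_i (N π_i - 1) / 4 ≡ 1 mod 4`: good reduction at `1 + i`.  The central value is a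
  period times `1/4 ∑ (x / ∏ π_i ^ e_i)_4 g(x Ω / D)`, `g = ℘' / (℘ (1 + i)³)`;
* negative sign: conductor `4 D`.  Here `g = (1 + i) κ ℘ ℘' / (℘⁴ - 6 ℘² + 1)` or
  `g = (1 + i) (κ / 2) ℘' (℘² - 1) / (℘⁴ - 6 ℘² + 1)`, `κ² = 8`.

In all the classes `g` is a unit congruent to one at the primes above `2` at the division points of odd
order, and a congruence modulo `1 + i` between the values for different exponents, with a sum over
spanning trees on the side of the graph of the quadratic residue symbols, shows that the central values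
are not zero.  The points and the Tate-Shafarevich groups over `K` are treated by a descent by the
endomorphism `1 + i`.  Part 1: equidistribution of the symbols (bilinear sums over boxes) and the
probability that the Laplacian of a random symmetric completion has only the constants in its kernel.

Joint work of helper3 (statements, main congruence, field steps, assembly), helper23 (limits for the
negative sign, reciprocity, `Ш`), helper32 (Hecke characters, L-series), helper65 (the curves with
`k = 0, 2`, Selmer groups), helper76 (the functions at the division points, `Ш` over `F`), helper93 (the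
positive sign, finiteness, `Ш`), helper97 (exact proportion for the norms `5` modulo `16`, `Ш`).
-/

set_option autoImplicit false

namespace Pool.Agent.Results.MP_f50388_nt.QuarticExtensionsOfGaussianField

open NumberField IsDedekindDomain
open Pool.Agent.TH841.NF.D (Sha)

/-- The curve `y² = x³ - x` over `F`. -/
def curve (F : Type) [Field F] : WeierstrassCurve F := ⟨0, 0, 0, -1, 0⟩

/-- `a` is a square modulo `π`. -/
def SquareMod (a π : GaussianInt) : Prop := ∃ x : GaussianInt, π ∣ x ^ 2 - a

/-- The class: `D` is squarefree, `D ≡ 1 mod 2 + 2i`, `N(D) ≡ 5 mod 8`. -/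
def InClass (D : GaussianInt) : Prop :=
  Squarefree D ∧ (⟨2, 2⟩ : GaussianInt) ∣ D - 1 ∧ D.norm % 8 = 5

/-- The good elements of the class: there is no factorization `D = d d'`, `d ≡ 1 mod 2 + 2i`,
`d, d' ≠ 1`, such that `d'` is a square modulo the prime divisors of `d` and `d` is a square modulo the
prime divisors of `d'`. -/
def Good (D : GaussianInt) : Prop :=
  InClass D ∧ ∀ d d' : GaussianInt, D = d * d' → (⟨2, 2⟩ : GaussianInt) ∣ d - 1 →
    (∀ π : GaussianInt, Prime π → π ∣ d → SquareMod d' π) →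
    (∀ π : GaussianInt, Prime π → π ∣ d' → SquareMod d π) → d = 1 ∨ d' = 1

/-- The norm of `t` is odd, and every prime divisor of `t` divides `D` or has `D` as a nonresidue. -/
def Compatible (D t : GaussianInt) : Prop :=
  t.norm % 2 = 1 ∧ ∀ π : GaussianInt, Prime π → π ∣ t → π ∣ D ∨ ¬ SquareMod D π

open scoped Classical in
/-- The conclusion for `E : y² = x³ - x` over the number field `F`:

* there is a function `L` which is differentiable for `Re s > 1/2`, with `L(1) ≠ 0`, and for
  `Re s > 3/2` the L-series of `E` over `F` converges absolutely and has the value `L(s)`;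
* `E(F)` is finite;
* the 2-primary part of `Ш(E/F)` is finite and killed by `4`. -/
def RankZero (F : Type) [Field F] [NumberField F] : Prop :=
  (∃ L : ℂ → ℂ, DifferentiableOn ℂ L {s : ℂ | 1 / 2 < s.re} ∧ L 1 ≠ 0 ∧
    ∀ s : ℂ, 3 / 2 < s.re → LSeriesSummable ((fun n : ℤ => (n : ℂ)) ∘ (curve F).LFunction) s ∧
      L s = (curve F).LSeries s) ∧
  Finite (curve F).toAffine.Point ∧
  {x : Sha (curve F) | ∃ n : ℕ, 2 ^ n • x = 0}.Finite ∧
  ∀ (n : ℕ) (x : Sha (curve F)), 2 ^ n • x = 0 → 4 • x = 0

open scoped Classical in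
/-- The rank part of the conjecture of Birch and Swinnerton-Dyer: the L-series of `E` over `F` continues
analytically from `Re s > 3/2` to a connected open set containing `1`, where its order of vanishing
is the rank of `E(F)`. -/
def RankConjecture {F : Type} [Field F] [NumberField F] (E : WeierstrassCurve F) : Prop :=
  ∃ (U : Set ℂ) (Φ : ℂ → ℂ),
    IsOpen U ∧ IsConnected U ∧ {s : ℂ | (3 / 2 : ℝ) < s.re} ⊆ U ∧ (1 : ℂ) ∈ U ∧
    AnalyticOnNhd ℂ Φ U ∧ (∀ s : ℂ, (3 / 2 : ℝ) < s.re → Φ s = E.LSeries s) ∧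
    (∀ r : ℕ, r < Module.finrank ℤ E.toAffine.Point → iteratedDeriv r Φ 1 = 0) ∧
    iteratedDeriv (Module.finrank ℤ E.toAffine.Point) Φ 1 ≠ 0

/-- The statement for one `D`: infinitely many primes `t` are compatible with `D`, and for
`K = ℚ(i)` (every number field `K` with an isomorphism `e` of `ℤ[i]` with its ring of integers), every `t`
compatible with `D` and every number field `F = K(η)`, `η⁴ = D t²` or `η⁴ = - D t²`: `[F : K] = 4`,
`RankZero F` and `RankConjecture` hold for `E : y² = x³ - x` over `F`. -/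
def Proved (D : GaussianInt) : Prop :=
  {t : GaussianInt | Prime t ∧ Compatible D t}.Infinite ∧
  ∀ (K : Type) [Field K] [NumberField K] (e : GaussianInt ≃+* 𝓞 K) (t : GaussianInt),
    Compatible D t → ∀ (F : Type) [Field F] [NumberField F] [Algebra K F] (η : F),
      (η ^ 4 = algebraMap K F (algebraMap (𝓞 K) K (e (D * t ^ 2))) ∨
        η ^ 4 = algebraMap K F (algebraMap (𝓞 K) K (e (-(D * t ^ 2))))) →
      IntermediateField.adjoin K {η} = ⊤ →
      Module.finrank K F = 4 ∧ RankZero F ∧ RankConjecture (curve F)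

open scoped Classical in
theorem finrank_zero {F : Type} [Field F] (E : WeierstrassCurve F) (h : Finite E.toAffine.Point) :
    Module.finrank ℤ E.toAffine.Point = 0 := by
  refine Module.finrank_eq_zero_of_rank_eq_zero ?_
  rw [rank_eq_zero_iff]
  intro x
  obtain ⟨n, hn, h0⟩ := isOfFinAddOrder_iff_nsmul_eq_zero.1 (isOfFinAddOrder_of_finite x)
  exact ⟨n, by positivity, by rw [natCast_zsmul]; exact h0⟩

theorem rank_of {F : Type} [Field F] [NumberField F] (E : WeierstrassCurve F)
    (h : Finite E.toAffine.Point) {L : ℂ → ℂ} (hL : DifferentiableOn ℂ L {s : ℂ | 1 / 2 < s.re})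
    (h1 : L 1 ≠ 0) (h2 : ∀ s : ℂ, 3 / 2 < s.re → L s = E.LSeries s) : RankConjecture E := by
  have h0 := finrank_zero E h
  have hopen : IsOpen {s : ℂ | 1 / 2 < s.re} := isOpen_lt continuous_const Complex.continuous_re
  have hconv : Convex ℝ {s : ℂ | 1 / 2 < s.re} := convex_halfSpace_re_gt _
  have h1m : (1 : ℂ) ∈ {s : ℂ | 1 / 2 < s.re} := by
    show (1 : ℝ) / 2 < (1 : ℂ).re
    rw [Complex.one_re]; norm_num
  refine ⟨{s : ℂ | 1 / 2 < s.re}, L, hopen, ⟨⟨1, h1m⟩, hconv.isPreconnected⟩, ?_, h1m,
    hL.analyticOnNhd hopen, h2, ?_, ?_⟩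
  · intro s hs
    have hs' : (3 / 2 : ℝ) < s.re := hs
    show (1 : ℝ) / 2 < s.re
    linarith
  · intro r hr
    rw [h0] at hr
    exact absurd hr (Nat.not_lt_zero r)
  · rw [h0, iteratedDeriv_zero]
    exact h1

/-! ### The translation -/

theorem good_iff {D : GaussianInt} : Good D ↔ Pool.Agent.Y699.Good D :=
  (Iff.rfl : Good D ↔ Pool.Agent.L7h3.QD.GoodF D).trans Pool.Agent.L7h3.QD.goodF_iff

theorem norm_le_iff {D : GaussianInt} {X : ℕ} : D.norm ≤ X ↔ H385.nrm D ≤ X := by
  have h := Pool.Agent.L7h3.GX.nrm_int D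
  constructor
  · intro h1
    exact_mod_cast (h.trans_le h1)
  · intro h1
    rw [← h]
    exact_mod_cast h1

theorem proved {D : GaussianInt} (h : Good D) : Proved D := by
  have hg := good_iff.1 h
  refine ⟨?_, ?_⟩
  · have h1 := Pool.Agent.L7h3.MR.inf_primes (D := D) hg.five
    refine h1.mono ?_
    rintro ρ ⟨h2, h3, h4⟩
    have hps := (Pool.Agent.L7h3.MQ.one_mod_four h3).1
    refine ⟨h2, Pool.Agent.H304R2.EC.A1.prim_norm_odd hps, fun π hπ hd => Or.inr ?_⟩
    rintro ⟨x, hx⟩
    have h5 : Associated π ρ := hπ.associated_of_dvd h2 hd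
    exact h4 x (h5.symm.dvd.trans hx)
  · intro K _ _ e t ht F _ _ _ η hη htop
    have ht2 : ∀ ρ : GaussianInt, Prime ρ → ρ ∣ t → ρ ∣ D ∨ ∀ x : GaussianInt, ¬ ρ ∣ x ^ 2 - D := by
      intro ρ hρ hd
      rcases ht.2 ρ hρ hd with h1 | h1
      · exact Or.inl h1
      · exact Or.inr fun x hx => h1 ⟨x, hx⟩
    obtain ⟨s, hs, hs2⟩ : ∃ s : GaussianInt, (s = 1 ∨ s = -1) ∧
        η ^ 4 = algebraMap K F (Pool.Agent.Y715.Z.em0 e (s * (D * t ^ 2))) := by
      rcases hη with h1 | h1
      · exact ⟨1, Or.inl rfl, by rw [one_mul]; exact h1⟩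
      · exact ⟨-1, Or.inr rfl, by rw [neg_one_mul]; exact h1⟩
    obtain ⟨h4, h5, L, h6, h7, h8⟩ := Pool.Agent.L7h3.QD.crit Pool.Agent.L7h3.QD.parts hg ht.1 ht2 e hs
      hs2 htop
    have hsha := Pool.Agent.L7h3.QD.crit_sha Pool.Agent.L7h3.QD.parts2 hg ht.1 ht2 e hs hs2 htop h4
    refine ⟨h4, ⟨⟨L, h6, h7, h8⟩, h5, ?_, hsha⟩, rank_of _ h5 h6 h7 fun s hs => (h8 s hs).2⟩
    refine Pool.Agent.L7h3.QD.fin_pow ?_ hsha
    have hj : algebraMap K F (Pool.Agent.Y715.Z.em0 e H385.im1) ^ 2 = -1 := by
      rw [← map_pow, Pool.Agent.Y715.Z.im1_sq, map_neg, map_one]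
    exact Pool.Agent.L7h3.QD.sha2_fin hj (neg_ne_zero.2 one_ne_zero)

/-- **Main theorem.**

1. The proportion of the good `D` among the `D` of norm at most `X` in the class tends to
   `∏_{i ≥ 0} (1 - 2^{-(2 i + 1)})`, which is greater than `0.4194`.
2. There are at least `c X` good `D` of norm at most `X`, for some `c > 0` and all large `X`.
3. For every good `D` the statement `Proved D` holds: for `E : y² = x³ - x` over the quartic
   extensions `F = ℚ(i)((± D t²)^(1/4))`, all the `t` compatible with `D`, the rank part of the conjecture of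
   Birch and Swinnerton-Dyer (the order of vanishing and the rank are both zero), and the 2-primary part
   of `Ш(E/F)` is finite and killed by `4`. -/
theorem result :
    (Filter.Tendsto (fun X : ℕ => ({D : GaussianInt | D.norm ≤ X ∧ Good D}.ncard : ℝ) /
      ({D : GaussianInt | D.norm ≤ X ∧ InClass D}.ncard : ℝ)) Filter.atTop
      (nhds (∏' i : ℕ, (1 - (1 / 2 : ℝ) ^ (2 * i + 1)))) ∧
      0.4194 < ∏' i : ℕ, (1 - (1 / 2 : ℝ) ^ (2 * i + 1))) ∧
    (∃ c : ℝ, 0 < c ∧ ∃ X₀ : ℕ, ∀ X : ℕ, X₀ ≤ X →
      c * X ≤ ({D : GaussianInt | D.norm ≤ X ∧ Good D}.ncard : ℝ)) ∧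
    ∀ D : GaussianInt, Good D → Proved D := by
  refine ⟨⟨?_, Pool.Agent.Y948.CQ.t_C2.2.2.2.1⟩, ?_, fun D h => proved h⟩
  · have h := Pool.Agent.L7h97.QD.t_DEN8
    have e1 : ∀ X : ℕ, {D : GaussianInt | D.norm ≤ X ∧ Good D} = {D : H385.ZI |
        H385.nrm D ≤ X ∧ (Pool.Agent.Y699.PS D ∧ H385.nrm D % 8 = 5) ∧
          Pool.Agent.L7h3.GX.Gd (Pool.Agent.Y699.PD D)} := by
      intro X
      ext D
      exact and_congr norm_le_iff
        ((Iff.rfl : Good D ↔ Pool.Agent.L7h3.QD.GoodF D).trans Pool.Agent.L7h3.QD.good_iff8)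
    have e2 : ∀ X : ℕ, {D : GaussianInt | D.norm ≤ X ∧ InClass D} = {D : H385.ZI |
        H385.nrm D ≤ X ∧ (Pool.Agent.Y699.PS D ∧ H385.nrm D % 8 = 5)} := by
      intro X
      ext D
      exact and_congr norm_le_iff
        ((Iff.rfl : InClass D ↔ Pool.Agent.L7h3.QD.Cl5 D).trans Pool.Agent.L7h3.QD.cl5_iff)
    have e3 : (fun X : ℕ => ({D : GaussianInt | D.norm ≤ X ∧ Good D}.ncard : ℝ) /
      ({D : GaussianInt | D.norm ≤ X ∧ InClass D}.ncard : ℝ)) = (fun X : ℕ =>
        ({D : H385.ZI | H385.nrm D ≤ X ∧ (Pool.Agent.Y699.PS D ∧ H385.nrm D % 8 = 5) ∧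
          Pool.Agent.L7h3.GX.Gd (Pool.Agent.Y699.PD D)}.ncard : ℝ) /
        ({D : H385.ZI | H385.nrm D ≤ X ∧ (Pool.Agent.Y699.PS D ∧ H385.nrm D % 8 = 5)}.ncard : ℝ)) := by
      funext X
      rw [e1 X, e2 X]
    rw [e3]
    exact h
  · obtain ⟨c, hc, X₀, h⟩ := Pool.Agent.Y699.positive₄
    refine ⟨c, hc, X₀, fun X hX => ?_⟩
    refine (h X hX).trans ?_
    have hfin : {D : GaussianInt | D.norm ≤ X ∧ Good D}.Finite := by
      refine (Pool.Agent.Y699.fin_norm_le X).subset ?_
      rintro D ⟨h1, -⟩
      have h0 := GaussianInt.norm_nonneg D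
      show D.norm.natAbs ≤ X
      omega
    have h1 : ((Pool.Agent.Y699.GB₄ X : Finset GaussianInt) : Set GaussianInt) ⊆
        {D : GaussianInt | D.norm ≤ X ∧ Good D} := by
      intro D hD
      have h2 : D ∈ Pool.Agent.Y699.SB X ∧ Pool.Agent.Y699.Good4 D := by
        have h0 := Finset.mem_coe.1 hD
        unfold Pool.Agent.Y699.GB₄ at h0
        classical
        exact Finset.mem_filter.1 h0
      have h3 := (Pool.Agent.Y699.mem_SB).1 h2.1
      refine ⟨?_, good_iff.2 h2.2.good⟩
      have h4 : D.norm.natAbs ≤ X := h3.1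
      omega
    have h5 := Set.ncard_le_ncard h1 hfin
    rw [Set.ncard_coe_finset] at h5
    exact_mod_cast h5

end Pool.Agent.Results.MP_f50388_nt.QuarticExtensionsOfGaussianField
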