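import Pool.Agent.L7h15.BK.Bsd
import Pool.Agent.L7h22.BK.Disc

/-!
# The 2-part of the refined conjecture over imaginary quadratic fields and over their class fields

`E` is an elliptic curve over `ℚ` with the equation `W`, and `K` is an imaginary quadratic field of class number one;
`W` is minimal at all places of `K`, and the Bianchi newform `f` of weight two over `K` belongs to `E/K`.  Suppose
that `E(K)[2] = 0`, that the `2`-Selmer group of `E/K` is trivial, and that the central value of `f` is odd: the value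
`Φ(0)` of the primitive `Φ` of the harmonic differential of `f` at the cusp `0` is not in `2 w Λ`, where `Λ ≅ ℤ` is
the group of the values of `Φ` at the cusps `x/m`, `m` prime to the level, and `w = #{u ∈ 𝓞 : u⁴ = 1}`.

`F` is the class field over `K` of any finite group of characters of `2`-power order whose conductors are
products of different places `v ∤ 6 Δ` of `K` with `E(k_v)[2] = 0`, such that the places `v ∣ 6 Δ` split completely
in `F`.  There is no bound for the degree and for the exponent of `Gal(F/K)`; in general `F` is not a Galois extension of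
`ℚ`.

Theorem.  `L(E/F, s)` is entire and `L(E/F, 1) ≠ 0`; `E(F)` is finite of odd order, and `Ш(E/F)[2^∞] = 0`.  The
equation `W` is minimal at all places of `F`, the product of the Tamagawa numbers over `F` and the period `Ω_{E/F}` are the
`[F : K]`-th powers of those over `K`, and the quotient of `L(E/F, 1) √|Disc F|` and
`(L(E/K, 1) √|Disc K|)^[F : K]` is an algebraic number which is a unit at all the primes above two.  So **the 2-part of
the formula of Birch and Swinnerton-Dyer for `E` over `K` is equivalent to the 2-part of the formula for `E` over `F`**,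
for each of the (infinitely many) fields `F`.

The proof.  The points and the Tate-Shafarevich group: the descent of helper55 (`Pool.Agent.K4H55.CX.fin_up`).  The
central values: the congruences modulo the primes above two between the values of `Φ` at cusps, and the Gauss sums
(`Pool.Agent.K4H55.CX.ab_unit`), which give `L(E/F, 1)` up to units above two and up to an algebraic integer of absolute
value `√D`, where `D` is the product of the norms of the conductors of the characters of `Gal(F/K)`;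
`|Disc F| = |Disc K|^[F : K] D` (the formula for conductors and discriminants for tame abelian extensions, proved by
helper22 with the different and the duality of finite abelian groups).  The characters of `Gal(F/K)` are
characters of `K` by the reciprocity law; the decomposition law of `F/K` and the number of points over the extensions of
finite fields give the Euler product over the places of `F`.  The completions of `F` at the places above `6 Δ` are
isomorphic to those of `K`, so the minimality and the Tamagawa numbers are the same.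

(Numerically the central value is odd, for instance, for `K = ℚ(√-7)` and the curve `y² + y = x³ + x² - 9 x - 15` of
conductor `19`.)
-/

set_option autoImplicit false

open NumberField NumberField.InfinitePlace IsDedekindDomain WeierstrassCurve MeasureTheory Filter Topology
open scoped TensorProduct

namespace Pool.Agent.Results.MP_f50388_nt.TwoPartClassFields

/-! ### The curve and the formula of Birch and Swinnerton-Dyer (as in `FormulaModTwo`) -/

section formula

open scoped Classical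

open Pool.Agent.TH841.NF.D (Sha)

/-- The curve given by the equation of `W` over the ring `R`. -/
abbrev base (W : WeierstrassCurve ℤ) (R : Type) [CommRing R] : WeierstrassCurve R :=
  W.map (Int.castRingHom R)

/-- The number of the affine points `(x, y)` over the ring `R`. -/
noncomputable def pts (W : WeierstrassCurve ℤ) (R : Type) [CommRing R] : ℕ :=
  Nat.card {P : R × R // (base W R).toAffine.Equation P.1 P.2}

section

variable {K : Type} [Field K] [NumberField K]

/-- `a_v = N v + 1 - #W(k_v)`, the points over the residue field `k_v` counted with the point at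
infinity. -/
noncomputable def a (W : WeierstrassCurve ℤ) (v : HeightOneSpectrum (𝓞 K)) : ℤ :=
  (Ideal.absNorm v.asIdeal : ℤ) - pts W (𝓞 K ⧸ v.asIdeal)

/-- The Euler factor of `L(W/K, s)` at `v` : `(1 - a_v N v^(-s) + N v^(1 - 2 s))⁻¹` if the
discriminant is a unit at `v`, and `(1 - a_v N v^(-s))⁻¹` otherwise. -/
noncomputable def factor (W : WeierstrassCurve ℤ) (s : ℂ) (v : HeightOneSpectrum (𝓞 K)) : ℂ :=
  (1 - (a W v : ℂ) * (Ideal.absNorm v.asIdeal : ℂ) ^ (-s) +
    if ((W.Δ : ℤ) : 𝓞 K) ∈ v.asIdeal then 0 else (Ideal.absNorm v.asIdeal : ℂ) ^ (1 - 2 * s))⁻¹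

/-- The equation is minimal at the finite place `v` of `K`: no change of variables over `K` that
keeps the coefficients integral at `v` decreases the order of the discriminant. -/
def MinimalAt (W : WeierstrassCurve ℤ) (v : HeightOneSpectrum (𝓞 K)) : Prop :=
  ∀ C : VariableChange K, v.valuation K (C • base W K).a₁ ≤ 1 →
    v.valuation K (C • base W K).a₂ ≤ 1 → v.valuation K (C • base W K).a₃ ≤ 1 →
    v.valuation K (C • base W K).a₄ ≤ 1 → v.valuation K (C • base W K).a₆ ≤ 1 →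
    v.valuation K (C • base W K).Δ ≤ v.valuation K (base W K).Δ

/-- `E⁰(K_v)`, the group of the points of `W` over the completion `K_v` with nonsingular reduction:
the points `(x, y)` where `x` is not integral, or one of the partial derivatives of
`y² + a₁ x y + a₃ y - x³ - a₂ x² - a₄ x - a₆` is a unit at `(x, y)`, and the point at infinity. -/
noncomputable def nonsing (W : WeierstrassCurve ℤ) (v : HeightOneSpectrum (𝓞 K)) :
    AddSubgroup (base W (v.adicCompletion K)).toAffine.Point :=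
  AddSubgroup.closure {P | ∀ x y h, P = Affine.Point.some x y h →
    1 < Valued.v x ∨ Valued.v (W.a₁ * y - (3 * x ^ 2 + 2 * W.a₂ * x + W.a₄)) = 1 ∨
      Valued.v (2 * y + W.a₁ * x + W.a₃) = 1}

/-- The Tamagawa number `c_v = [E(K_v) : E⁰(K_v)]` of a minimal equation. -/
noncomputable def c (W : WeierstrassCurve ℤ) (v : HeightOneSpectrum (𝓞 K)) : ℕ :=
  (nonsing W v).index

end

section

variable (K : Type) [Field K] [NumberField K]

/-- The product of the Tamagawa numbers. -/
noncomputable def Tam (W : WeierstrassCurve ℤ) : ℕ := ∏ᶠ v : HeightOneSpectrum (𝓞 K), c W v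

/-- The 2-primary part of the Tate-Shafarevich group over `K`. -/
def Sha2 (W : WeierstrassCurve ℤ) : Set (Sha (base W K)) := {x | ∃ n : ℕ, 2 ^ n • x = 0}

end

/-- `4 x³ + b₂ x² + 2 b₄ x + b₆ = (2 y + a₁ x + a₃)²`, where `b₂ = a₁² + 4 a₂`,
`b₄ = 2 a₄ + a₁ a₃`, `b₆ = a₃² + 4 a₆`. -/
def cubic (W : WeierstrassCurve ℤ) {R : Type} [CommRing R] (x : R) : R :=
  4 * x ^ 3 + W.b₂ * x ^ 2 + 2 * W.b₄ * x + W.b₆

/-- `∫_{W(ℝ)} |ω|` with `ω = dx / (2 y + a₁ x + a₃)`, as an integral over `x`: two real points lie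
over each `x` with `cubic x > 0`. -/
noncomputable def realPeriod (W : WeierstrassCurve ℤ) : ℝ :=
  2 * ∫ x in {x : ℝ | 0 < cubic W x}, 1 / √(cubic W x)

/-- `2 ∫_{W(ℂ)} |ω ∧ ω̄|`, where `|ω ∧ ω̄| = du dv` in a local parameter `z = u + i v` with
`dz = ω`, as an integral over `x`: two points lie over a general `x`, and `|ω ∧ ω̄|` is the area
element of the plane of `x` divided by `|cubic x|`. -/
noncomputable def complexPeriod (W : WeierstrassCurve ℤ) : ℝ := 2 * (2 * ∫ x : ℂ, 1 / ‖cubic W x‖)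

/-- The global period of an equation that is minimal at all finite places. -/
noncomputable def Omega (K : Type) [Field K] [NumberField K] (W : WeierstrassCurve ℤ) : ℝ :=
  realPeriod W ^ nrRealPlaces K * complexPeriod W ^ nrComplexPlaces K

/-- The right side of the formula for a curve of rank zero with an equation that is minimal at all
finite places, with the 2-primary part of the Tate-Shafarevich group:
`#Ш(W/K)[2^∞] Ω_{W/K} ∏ c_v / (√|Disc K| #W(K)²)`. -/
noncomputable def rhs (K : Type) [Field K] [NumberField K] (W : WeierstrassCurve ℤ) : ℝ :=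
  (Nat.card (Sha2 K W) : ℝ) * Omega K W * (Tam K W : ℝ) /
    (√|(discr K : ℝ)| * (Nat.card (base W K).toAffine.Point : ℝ) ^ 2)

/-- `Λ` is the `L`-function of `W` over `K`: the entire function given by the Euler product for `Re s > 2`. -/
def IsLFunction (K : Type) [Field K] [NumberField K] (W : WeierstrassCurve ℤ) (Λ : ℂ → ℂ) : Prop :=
  Differentiable ℂ Λ ∧ ∀ s : ℂ, 2 < s.re → HasProd (factor (K := K) W s) (Λ s)

/-- `r` is an algebraic number which is a unit at all the primes above two. -/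
def TwoUnit (r : ℂ) : Prop :=
  ∃ m : ℤ, Odd m ∧ IsIntegral ℤ ((m : ℂ) * r) ∧ IsIntegral ℤ ((m : ℂ) * r⁻¹)

/-- **The 2-part of the formula of Birch and Swinnerton-Dyer** for `W` over `K`, in the case of rank zero: the
`L`-function is entire, `L(W/K, 1)` and the right side `#Ш(W/K)[2^∞] Ω ∏ c_v / (√|Disc K| #W(K)²)` are not zero, and their
quotient is an algebraic number which is a unit at all the primes above two. -/
def TwoPart (K : Type) [Field K] [NumberField K] (W : WeierstrassCurve ℤ) : Prop :=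
  ∃ Λ : ℂ → ℂ, IsLFunction K W Λ ∧ Λ 1 ≠ 0 ∧ rhs K W ≠ 0 ∧ TwoUnit (Λ 1 / rhs K W)

end formula

/-! ### Bianchi newforms (as in `MP_32c55d_nt.BianchiClassFields`) -/

/-- `K` is an imaginary quadratic field, `σ` is one of its two embeddings in `ℂ`, and `δ` generates the
different of `K`: an `x ∈ K` is in `𝓞` if and only if `Tr(x y / δ) ∈ ℤ` for all `y ∈ 𝓞`. -/
structure IsFieldData (K : Type) [Field K] [NumberField K] (σ : K →+* ℂ) (δ : K) : Prop where
  quadratic : Module.finrank ℚ K = 2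
  imaginary : ∃ x, (starRingEnd ℂ) (σ x) ≠ σ x
  different : ∀ x : K, (∃ a : 𝓞 K, (a : K) = x) ↔
    ∀ y : 𝓞 K, ∃ m : ℤ, Algebra.trace ℚ K (x * y / δ) = m

/-- `h(y) = ∫_0^∞ exp(-1/v - y v) dv = 2 y^(-1/2) K₁(2 √y)`, with the Bessel function `K₁`. -/
noncomputable def bessel (y : ℝ) : ℝ := ∫ v in Set.Ioi (0 : ℝ), Real.exp (-(1 / v) - y * v)

/-- The additive character `e(z) = exp(2πi (z/δ + conj (z/δ)))` of `ℂ`, trivial on `𝓞`. -/
noncomputable def addChar (δ z : ℂ) : ℂ :=
  Complex.exp (2 * Real.pi * Complex.I * (z / δ + (starRingEnd ℂ) (z / δ)))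

/-- The denominator `|c z + d|² + |c|² t²` of the action of the matrix `(a, b; c, d)` on the hyperbolic
space `{(z, t) : z ∈ ℂ, t > 0}`. -/
noncomputable def den (c d z : ℂ) (t : ℝ) : ℝ := ‖c * z + d‖ ^ 2 + ‖c‖ ^ 2 * t ^ 2

/-- The first coordinate `((a z + b) conj (c z + d) + a conj(c) t²) / (|c z + d|² + |c|² t²)` of the image
of `(z, t)` under the matrix `(a, b; c, d)`. -/
noncomputable def actZ (a b c d z : ℂ) (t : ℝ) : ℂ :=
  ((a * z + b) * (starRingEnd ℂ) (c * z + d) + a * (starRingEnd ℂ) c * (t : ℂ) ^ 2) /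
    (den c d z t : ℂ)

/-- The second coordinate, for a matrix of determinant one; in general it is `|ad - bc|` times this. -/
noncomputable def actT (c d z : ℂ) (t : ℝ) : ℝ := t / den c d z t

section field
variable {K : Type} [Field K] [NumberField K]

/-- The function `Φ(z, t) = ∑_{x ∈ 𝓞} c((x)) t² h(N(x) (2πt/|δ|)²) e(x z)
  = (|δ|/π) ∑_{x ≠ 0} (c((x))/|x|) t K₁(4π|x|t/|δ|) e(x z)` on the hyperbolic space, with the coefficients `c`.
Up to a constant factor it is the primitive, zero at the cusp `∞`, of the harmonic differential of the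
form of weight two with the Fourier coefficients `c`: its derivative by `t` is
`-4 ∑_{x ≠ 0} c((x)) t K₀(4π|x|t/|δ|) e(x z)`. -/
noncomputable def primitive (σ : K →+* ℂ) (δ : K) (c : Ideal (𝓞 K) → ℂ) (z : ℂ) (t : ℝ) : ℂ :=
  ∑' x : 𝓞 K, c (Ideal.span {x}) * ((t ^ 2 * bessel (Ideal.absNorm (Ideal.span {x}) *
    (2 * Real.pi * t / ‖σ δ‖) ^ 2) : ℝ) : ℂ) * addChar (σ δ) (σ x * z)

/-- The group `Λ` generated by the values of the primitive `Φ` at the cusps `x/m`, `m ≠ 0` prime to the level (that is,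
by the limits of `Φ(x/m, t)` for `t → 0`). -/
def Lam (σ : K →+* ℂ) (δ : K) (n : 𝓞 K) (c : Ideal (𝓞 K) → ℂ) : AddSubgroup ℂ :=
  AddSubgroup.closure {z | ∃ x m : 𝓞 K, m ≠ 0 ∧ IsCoprime m n ∧
    Tendsto (fun t => primitive σ δ c (σ x / σ m) t) (𝓝[>] 0) (𝓝 z)}

/-- The numbers `c(I)` are the Hecke eigenvalues of a Bianchi newform `f` of weight two, level `(n)` and
trivial character over `K`, with rational eigenvalues: they satisfy `c(𝓞) = 1`, the (trivial) bound `c(I) = O(N(I))`
and the Hecke relations `c(v I) = c(v) c(I)` for `v ∤ I`, `c(v² I) = c(v) c(v I) - N(v) c(I)` for the primes `v ∤ n`, and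
`c(v I) = c(v) c(I)` for `v ∣ n`; the differential `dΦ` of the function `Φ` with the coefficients `c` is
invariant under `Γ₀(n)`, that is, `Φ(γ P) - Φ(P)` is a constant for every `γ ∈ Γ₀(n)`; `dΦ` is an
eigenform, with the eigenvalue `±1`, of the Fricke involution `W = (0, -1; n, 0)`; and the group `Λ` of the values of `Φ` at
cusps is cyclic (this is so for rational eigenvalues, by multiplicity one and the theorem of Manin, Drinfeld and
Kurčanov: the quotient of `H₁(Γ₀(n), cusps; ℤ)` which belongs to `f` has rank one). -/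
structure IsNewform (σ : K →+* ℂ) (δ : K) (n : 𝓞 K) (c : Ideal (𝓞 K) → ℂ) : Prop where
  level : n ≠ 0
  zero : c ⊥ = 0
  one : c ⊤ = 1
  bound : ∃ C : ℝ, ∀ I, ‖c I‖ ≤ C * Ideal.absNorm I
  good : ∀ v : HeightOneSpectrum (𝓞 K), n ∉ v.asIdeal → ∀ I,
    (¬ v.asIdeal ∣ I → c (v.asIdeal * I) = c v.asIdeal * c I) ∧
    c (v.asIdeal * (v.asIdeal * I)) = c v.asIdeal * c (v.asIdeal * I) -
      Ideal.absNorm v.asIdeal * c I
  bad : ∀ v : HeightOneSpectrum (𝓞 K), n ∈ v.asIdeal → ∀ I,
    c (v.asIdeal * I) = c v.asIdeal * c I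
  invariant : ∃ κ : Matrix.SpecialLinearGroup (Fin 2) (𝓞 K) → ℂ,
    ∀ γ : Matrix.SpecialLinearGroup (Fin 2) (𝓞 K), n ∣ γ.1 1 0 → ∀ (z : ℂ) (t : ℝ), 0 < t →
      primitive σ δ c (actZ (σ (γ.1 0 0)) (σ (γ.1 0 1)) (σ (γ.1 1 0)) (σ (γ.1 1 1)) z t)
        (actT (σ (γ.1 1 0)) (σ (γ.1 1 1)) z t) = primitive σ δ c z t + κ γ
  fricke : ∃ w κ : ℂ, w * w = 1 ∧ ∀ (z : ℂ) (t : ℝ), 0 < t →
    primitive σ δ c (actZ 0 (-1) (σ n) 0 z t) (‖σ n‖ * actT (σ n) 0 z t) =
      -w * primitive σ δ c z t + κ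
  cyclic : ∃ ω ∈ Lam σ δ n c, ∀ l ∈ Lam σ δ n c, ∃ j : ℤ, l = j * ω

/-- The number `w` of the `u ∈ 𝓞` with `u⁴ = 1`: it is `4` for `K = ℚ(i)` and `2` otherwise. -/
noncomputable def fourth (K : Type) [Field K] : ℕ := Nat.card {u : 𝓞 K // u ^ 4 = 1}

/-- The central value is odd: `Φ(0)`, the limit of `Φ(0, t)` for `t → 0`, is not in `2 w Λ`. -/
def OddCentralValue (σ : K →+* ℂ) (δ : K) (n : 𝓞 K) (c : Ideal (𝓞 K) → ℂ) : Prop :=
  ∃ z₀ : ℂ, Tendsto (fun t => primitive σ δ c 0 t) (𝓝[>] 0) (𝓝 z₀) ∧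
    ∀ y ∈ Lam σ δ n c, z₀ ≠ 2 * fourth K * y

/-- `f` is the newform of `W` over `K`, where `W` is minimal at all places of `K`: the Euler factors of `f` and of `W`
agree at all the places `v`, that is, `c(v) = a_v`, and `v` divides the level if and only if it divides the
discriminant. -/
def IsNewformOf (W : WeierstrassCurve ℤ) (n : 𝓞 K) (c : Ideal (𝓞 K) → ℂ) : Prop :=
  ∀ v : HeightOneSpectrum (𝓞 K), c v.asIdeal = (a W v : ℂ) ∧
    (n ∈ v.asIdeal ↔ ((W.Δ : ℤ) : 𝓞 K) ∈ v.asIdeal)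

/-! ### The 2-Selmer group over `K` and the extension `F`; the short form of `W` is `y² = x³ + a x + b`,
`a = -27 c₄`, `b = -54 c₆`, and `4 a³ + 27 b² = -2⁸ 3¹² Δ` -/

section selmer
variable {L : Type} [Field L] [NumberField L] [Algebra K L]

/-- `L = K(θ)` is the cubic field of `E`: `θ³ + a θ + b = 0`, and every element of `L` is `u + v θ + w θ²` for
unique `u, v, w ∈ K`.  So `x³ + a x + b` is irreducible over `K`, that is, `E(K)[2] = 0`. -/
structure IsCubicField (a b : 𝓞 K) (θ : L) : Prop where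
  root : θ ^ 3 + algebraMap K L a * θ + algebraMap K L b = 0
  basis : ∀ β : L, ∃! t : K × K × K,
    β = algebraMap K L t.1 + algebraMap K L t.2.1 * θ + algebraMap K L t.2.2 * θ ^ 2

/-- The class of `α` in `(K_v ⊗ L)^×` modulo squares is in the group generated by the images of the points
`(x, y)`, `y ≠ 0`, of `E(K_v)` under the Kummer map `(x, y) ↦ x - θ`.  (This group is the image of `E(K_v)/2E(K_v)`, as
the map is a homomorphism and all classes contain points with `y ≠ 0`.) -/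
def LocalCondition (a b : 𝓞 K) (θ : L) (v : HeightOneSpectrum (𝓞 K)) (α : L) : Prop :=
  ∃ s : List (v.adicCompletion K),
    (∀ x ∈ s, ∃ y : v.adicCompletion K, y ≠ 0 ∧
      y ^ 2 = x ^ 3 + algebraMap K (v.adicCompletion K) a * x +
        algebraMap K (v.adicCompletion K) b) ∧
    IsSquare (((1 : v.adicCompletion K) ⊗ₜ[K] α) *
      (s.map fun x => x ⊗ₜ[K] (1 : L) - 1 ⊗ₜ[K] θ).prod)

/-- The `2`-Selmer group of `E/K` is trivial.  As `E(K)[2] = 0` and `K` has no real places, it is the group of the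
classes of `α ∈ L^×` modulo squares such that the norm of `α` is a square, `w(α)` is even for all places
`w ∤ 2(4a³ + 27b²)` of `L`, and `α` satisfies the local conditions at the places `v ∣ 2(4a³ + 27b²)` of `K`. -/
def TrivialSelmer (a b : 𝓞 K) (θ : L) : Prop :=
  ∀ α : L, α ≠ 0 → IsSquare (Algebra.norm K α) →
    (∀ w : HeightOneSpectrum (𝓞 L), algebraMap (𝓞 K) (𝓞 L) (2 * (4 * a ^ 3 + 27 * b ^ 2)) ∉
      w.asIdeal → IsSquare (w.valuation L α)) →
    (∀ v : HeightOneSpectrum (𝓞 K), 2 * (4 * a ^ 3 + 27 * b ^ 2) ∈ v.asIdeal →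
      LocalCondition a b θ v α) → IsSquare α

end selmer

/-- The admissible places: `v ∤ 2(4a³ + 27b²)`, and `x³ + a x + b` has no root modulo `v`. -/
def Admissible (a b : 𝓞 K) (v : HeightOneSpectrum (𝓞 K)) : Prop :=
  2 * (4 * a ^ 3 + 27 * b ^ 2) ∉ v.asIdeal ∧ ∀ x : 𝓞 K, x ^ 3 + a * x + b ∉ v.asIdeal

/-- `χ` is a character of `K` of `2`-power order and of conductor `∏_{v ∈ T} v`, as a function on `𝓞` (`K` has class
number one): a primitive character modulo the product of the `v ∈ T`, trivial on the units, and zero on the `x` which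
are not prime to the conductor. -/
structure IsCharacter (T : Finset (HeightOneSpectrum (𝓞 K))) (χ : 𝓞 K → ℂ) : Prop where
  one : χ 1 = 1
  mul : ∀ x y, χ (x * y) = χ x * χ y
  zero : ∀ x, χ x = 0 ↔ ∃ v ∈ T, x ∈ v.asIdeal
  periodic : ∀ x y, (∀ v ∈ T, x - y ∈ v.asIdeal) → χ x = χ y
  units : ∀ u, IsUnit u → χ u = 1
  primitive : ∀ v ∈ T, ∃ x, (∀ v' ∈ T, v' ≠ v → x - 1 ∈ v'.asIdeal) ∧ χ x ≠ 0 ∧ χ x ≠ 1
  order : ∃ k : ℕ, ∀ x, χ x ≠ 0 → χ x ^ 2 ^ k = 1

section extension

variable (F : Type) [Field F] [NumberField F] [Algebra K F]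

/-- The places `u` of `F` above `v`. -/
def Above (v : HeightOneSpectrum (𝓞 K)) : Type :=
  {u : HeightOneSpectrum (𝓞 F) // u.asIdeal.comap (algebraMap (𝓞 K) (𝓞 F)) = v.asIdeal}

/-- `F/K` is a finite Galois extension of `2`-power degree, unramified outside of the admissible places of `K`, and the
places `v ∣ 2(4a³ + 27b²)` split completely in `F` (there is an embedding of `F` in `K_v`). -/
structure IsTwoExtension (a b : 𝓞 K) : Prop where
  galois : IsGalois K F
  degree : ∃ k : ℕ, Module.finrank K F = 2 ^ k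
  split : ∀ v : HeightOneSpectrum (𝓞 K), 2 * (4 * a ^ 3 + 27 * b ^ 2) ∈ v.asIdeal →
    Nonempty (F →ₐ[K] v.adicCompletion K)
  unramified : ∀ v : HeightOneSpectrum (𝓞 K), 2 * (4 * a ^ 3 + 27 * b ^ 2) ∉ v.asIdeal →
    ¬ Admissible a b v → ∀ u : Above F v, ∀ x : K,
      u.1.valuation F (algebraMap K F x) = v.valuation K x

/-- The Frobenius automorphisms at the place `u` of `F` above `v`: the `t ∈ Gal(F/K)` with `t x = x ^ N(v)`
modulo `u` for all the integers `x` of `F`.  They are a coset of the inertia group of `u`. -/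
def FrobSet (v : HeightOneSpectrum (𝓞 K)) (u : HeightOneSpectrum (𝓞 F)) : Set (F ≃ₐ[K] F) :=
  {t | ∀ x : 𝓞 F, t • x - x ^ Ideal.absNorm v.asIdeal ∈ u.asIdeal}

/-- `F` is the class field of a group of characters of `K` of `2`-power order, of conductors which are products of
different admissible places: `Gal(F/K)` is abelian, and for each of its characters `ψ` there is such a character `χ` of
`K`, of conductor `∏_{v ∈ T} v`, with the law of reciprocity: `T` is the set of the places at which `ψ` is ramified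
(not trivial on the inertia groups), and `ψ(t) = χ(v)` for all places `v ∉ T` of `K` and all
Frobenius automorphisms `t ∈ Gal(F/K)` at places of `F` above `v`. -/
structure IsClassField [IsPrincipalIdealRing (𝓞 K)] (a b : 𝓞 K) : Prop where
  abelian : ∀ s t : F ≃ₐ[K] F, s * t = t * s
  reciprocity : ∀ ψ : (F ≃ₐ[K] F) →* ℂ, ∃ (T : Finset (HeightOneSpectrum (𝓞 K))) (χ : 𝓞 K → ℂ),
    IsCharacter T χ ∧ (∀ v ∈ T, Admissible a b v) ∧
    (∀ v ∈ T, ∀ u : Above F v, ∃ t : F ≃ₐ[K] F, (∀ x : 𝓞 F, t • x - x ∈ u.1.asIdeal) ∧ ψ t ≠ 1) ∧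
    ∀ v : HeightOneSpectrum (𝓞 K), v ∉ T → ∀ (u : Above F v), ∀ t ∈ FrobSet F v u.1,
      ψ t = χ (Submodule.IsPrincipal.generator v.asIdeal)

end extension

end field

section proof

open Pool.Agent.L7h15.BK

lemma sha_of {M : Type} [Field M] [NumberField M] (W : WeierstrassCurve ℤ)
    (h : ∀ (k : ℕ) (s : Pool.Agent.TH841.NF.D.Sha (bas W M)), (2 ^ k : ℕ) • s = 0 → s = 0) :
    Sha2 M W = {0} := by
  ext x
  constructor
  · rintro ⟨k, hk⟩
    exact h k x hk
  · rintro rfl
    exact ⟨0, nsmul_zero _⟩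

end proof

open scoped Classical in
/-- **Theorem.** Let `K` be an imaginary quadratic field of class number one, `W` an equation over `ℤ` of an elliptic
curve, minimal at all places of `K`, with the Bianchi newform `f` of level `(n)` over `K`; let `y² = x³ + a x + b` be
its short form, `a = -27 c₄`, `b = -54 c₆`.  Suppose that `E(K)[2] = 0`, the `2`-Selmer group of `E/K` is
trivial, and the central value of `f` is odd.  Let `F/K` be a finite Galois extension of `2`-power degree,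
unramified outside of the admissible places, in which the places `v ∣ 6 Δ` of `K` split completely, and which is the
class field over `K` of a group of characters of `2`-power order, of conductors which are products of different
admissible places.  Then `E(K)` and `E(F)` are finite of odd order, `Ш(E/K)[2^∞] = 0` and `Ш(E/F)[2^∞] = 0`, `W` is
minimal at all places of `F`, `∏ c_v` and `Ω` over `F` are the `[F : K]`-th powers of those over `K`, `L(E/K, s)` and
`L(E/F, s)` are entire and not zero at `s = 1`, the quotient of `L(E/F, 1) √|Disc F|` and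
`(L(E/K, 1) √|Disc K|)^[F : K]` is a unit above two, and the 2-part of the formula of Birch and Swinnerton-Dyer over
`K` is equivalent to the 2-part over `F`. -/
theorem result (K : Type) [Field K] [NumberField K] [IsPrincipalIdealRing (𝓞 K)] (σ : K →+* ℂ)
    (δ : K) (hK : IsFieldData K σ δ) (W : WeierstrassCurve ℤ) (hΔ : W.Δ ≠ 0)
    (hmin : ∀ v : HeightOneSpectrum (𝓞 K), MinimalAt W v)
    (n : 𝓞 K) (c : Ideal (𝓞 K) → ℂ) (hf : IsNewform σ δ n c) (hE : IsNewformOf W n c)
    (hodd : OddCentralValue σ δ n c)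
    (a b : 𝓞 K) (ha : a = ((-27 * W.c₄ : ℤ) : 𝓞 K)) (hb : b = ((-54 * W.c₆ : ℤ) : 𝓞 K))
    (L : Type) [Field L] [NumberField L] [Algebra K L] (θ : L)
    (hθ : IsCubicField a b θ) (hS : TrivialSelmer a b θ)
    (F : Type) [Field F] [NumberField F] [Algebra K F]
    (hF : IsTwoExtension F a b) (hcl : IsClassField F a b) :
    ((Finite (base W K).toAffine.Point ∧ Odd (Nat.card (base W K).toAffine.Point) ∧
        Sha2 K W = {0}) ∧
      (Finite (base W F).toAffine.Point ∧ Odd (Nat.card (base W F).toAffine.Point) ∧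
        Sha2 F W = {0}) ∧
      (∀ u : HeightOneSpectrum (𝓞 F), MinimalAt W u) ∧
      Tam F W = Tam K W ^ Module.finrank K F ∧ Omega F W = Omega K W ^ Module.finrank K F) ∧
    (∃ ΛK ΛF : ℂ → ℂ, IsLFunction K W ΛK ∧ IsLFunction F W ΛF ∧ ΛK 1 ≠ 0 ∧ ΛF 1 ≠ 0 ∧
      TwoUnit (ΛF 1 * ((√|(discr F : ℝ)| : ℝ) : ℂ) /
        (ΛK 1 * ((√|(discr K : ℝ)| : ℝ) : ℂ)) ^ Module.finrank K F)) ∧
    (TwoPart K W ↔ TwoPart F W) := by
  classical
  subst ha hb
  have h : Pool.Agent.K4H55.BI.IQ K σ δ :=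
    ⟨hK.quadratic, hK.imaginary, inferInstance, hK.different⟩
  have hf' : Pool.Agent.K4H55.BI.BF σ δ n c := ⟨hf.level, hf.zero, hf.one, hf.bound, hf.good, hf.bad,
    hf.invariant, hf.fricke⟩
  have hcub : Pool.Agent.K4H55.BD.Cub K θ := by
    refine ⟨fun p q r h0 => ?_, fun β => ?_⟩
    · obtain ⟨t, ht, hu⟩ := hθ.basis 0
      have h1 := hu (p, q, r) h0.symm
      have h2 := hu (0, 0, 0) (by simp)
      have h3 := h1.trans h2.symm
      simp only [Prod.mk.injEq] at h3
      exact h3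
    · obtain ⟨t, ht, -⟩ := hθ.basis β
      exact ⟨t.1, t.2.1, t.2.2, ht⟩
  have hch : ∀ (T : Finset (HeightOneSpectrum (𝓞 K))) (χ : 𝓞 K → ℂ), IsCharacter T χ →
      Pool.Agent.K4H55.CX.CH T χ := fun T χ h1 =>
    ⟨h1.one, h1.mul, h1.zero, h1.periodic, h1.units, h1.primitive, h1.order⟩
  obtain ⟨ω, hω', hω⟩ := hf.cyclic
  obtain ⟨z, hz, hzo⟩ := hodd
  have hG := hF.galois
  obtain ⟨k, hk⟩ := hF.degree
  have hbad : ∀ v : HeightOneSpectrum (𝓞 K),
      2 * (4 * (((-27 * W.c₄ : ℤ) : 𝓞 K)) ^ 3 + 27 * (((-54 * W.c₆ : ℤ) : 𝓞 K)) ^ 2) ∈ v.asIdeal ↔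
        (6 : 𝓞 K) ∈ v.asIdeal ∨ ((W.Δ : ℤ) : 𝓞 K) ∈ v.asIdeal :=
    fun v => Pool.Agent.L7h15.BK.bad_iff W v
  have hD0 : 4 * (((-27 * W.c₄ : ℤ) : 𝓞 K)) ^ 3 + 27 * (((-54 * W.c₆ : ℤ) : 𝓞 K)) ^ 2 ≠ 0 := by
    have e := Pool.Agent.L7h15.BK.disc_short' W (𝓞 K)
    have e2 : 4 * (((-27 * W.c₄ : ℤ) : 𝓞 K)) ^ 3 + 27 * (((-54 * W.c₆ : ℤ) : 𝓞 K)) ^ 2 =
      -(2 ^ 8 * 3 ^ 12 * ((W.Δ : ℤ) : 𝓞 K)) := e
    rw [e2]
    have h3 : ((W.Δ : ℤ) : 𝓞 K) ≠ 0 := by exact_mod_cast hΔ
    exact neg_ne_zero.2 (mul_ne_zero (by norm_num) h3)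
  -- the algebraic side
  have hcoe : ∀ (m : ℤ) (M : Type) [Field M] [NumberField M] [Algebra K M],
      algebraMap K M ((m : 𝓞 K) : K) = (m : M) := by
    intro m M _ _ _
    have e1 : ((m : 𝓞 K) : K) = (m : K) := map_intCast (algebraMap (𝓞 K) K) m
    rw [e1, map_intCast]
  have halgF : Finite (base W F).toAffine.Point ∧ Odd (Nat.card (base W F).toAffine.Point) ∧
      Sha2 F W = {0} := by
    obtain ⟨h1, h2, -⟩ := Pool.Agent.K4H55.CX.fin_up (F := F) hD0 hcub hθ.root hS hk hF.split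
      (fun u hu => by
        by_cases h3 : ∀ X : 𝓞 K, X ^ 3 + ((-27 * W.c₄ : ℤ) : 𝓞 K) * X + ((-54 * W.c₆ : ℤ) : 𝓞 K) ∉
          (Pool.Agent.K4H55.BD.low (K := K) u).asIdeal
        · exact Or.inl h3
        · exact Or.inr fun x => hF.unramified _ hu (fun h4 => h3 h4.2) ⟨u, rfl⟩ x)
    rw [hcoe, hcoe] at h1 h2
    obtain ⟨k1, k2, k3⟩ := Pool.Agent.L7h15.BK.alg_of W hΔ h1 h2
    exact ⟨k1, k2, sha_of W k3⟩
  have halgK : Finite (base W K).toAffine.Point ∧ Odd (Nat.card (base W K).toAffine.Point) ∧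
      Sha2 K W = {0} := by
    obtain ⟨h1, h2, -⟩ := Pool.Agent.K4H55.CX.fin_up (F := K) (k := 0) hD0 hcub hθ.root hS
      (by rw [Module.finrank_self, pow_zero]) (fun v _ => ⟨Algebra.ofId K (v.adicCompletion K)⟩)
      (fun u hu => by
        refine Or.inr fun x => ?_
        have e : Pool.Agent.K4H55.BD.low (K := K) u = u := HeightOneSpectrum.ext (by
          show u.asIdeal.comap (algebraMap (𝓞 K) (𝓞 K)) = u.asIdeal
          exact Ideal.comap_id _)
        rw [e]
        rfl)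
    rw [hcoe, hcoe] at h1 h2
    obtain ⟨k1, k2, k3⟩ := Pool.Agent.L7h15.BK.alg_of W hΔ h1 h2
    exact ⟨k1, k2, sha_of W k3⟩
  -- the characters
  choose T χ c1 c2 c3 c4 using fun ψ : (F ≃ₐ[K] F) →* ℂˣ =>
    hcl.reciprocity ((Units.coeHom ℂ).comp ψ)
  have hR : ∀ ψ, Pool.Agent.L7h15.BK.Rc ψ (T ψ) (χ ψ) := by
    intro ψ
    refine ⟨hch _ _ (c1 ψ), fun v hv u hu => ?_, fun v hv u hu t ht => ?_⟩
    · obtain ⟨t, h2, h3⟩ := c3 ψ v hv ⟨u, hu⟩
      refine ⟨t, h2, fun h4 => h3 ?_⟩
      rw [MonoidHom.comp_apply, h4, map_one]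
    · exact c4 ψ v hv ⟨u, hu⟩ t ht
  have hsplit : ∀ v : HeightOneSpectrum (𝓞 K), (6 : 𝓞 K) ∈ v.asIdeal ∨
      ((W.Δ : ℤ) : 𝓞 K) ∈ v.asIdeal → Nonempty (F →ₐ[K] v.adicCompletion K) := fun v hv =>
    hF.split v ((hbad v).2 hv)
  have hadm : ∀ ψ, ∀ v ∈ T ψ, (6 : 𝓞 K) ∉ v.asIdeal ∧ ((W.Δ : ℤ) : 𝓞 K) ∉ v.asIdeal ∧
      ∀ x : 𝓞 K, x ^ 3 + ((Pool.Agent.L7h15.BK.sa W : ℤ) : 𝓞 K) * x +
        ((Pool.Agent.L7h15.BK.sb W : ℤ) : 𝓞 K) ∉ v.asIdeal := by
    intro ψ v hv
    obtain ⟨h1, h2⟩ := c2 ψ v hv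
    rw [hbad] at h1
    push Not at h1
    exact ⟨h1.1, h1.2, h2⟩
  obtain ⟨ΛK, ΛF, l1, l2, l3, l4, l5, l6, l7⟩ := Pool.Agent.L7h15.BK.val_up
    Pool.Agent.L7h22.BK.s_disc h hf' (W := W) (fun v => (hE v).2) (fun v => (hE v).1) hz hω hω' hzo
    hcl.abelian hk hsplit hR hadm
  have LK : IsLFunction K W ΛK := ⟨l1, fun s hs => l3 s hs⟩
  have LF : IsLFunction F W ΛF := ⟨l2, fun s hs => l4 s hs⟩
  -- the Tamagawa numbers
  obtain ⟨-, hl⟩ := Pool.Agent.L7h15.BK.cls hcl.abelian hR
  have hdeg1 : ∀ v : HeightOneSpectrum (𝓞 K), ((W.Δ : ℤ) : 𝓞 K) ∈ v.asIdeal →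
      ∀ u : HeightOneSpectrum (𝓞 F), u.asIdeal.comap (algebraMap (𝓞 K) (𝓞 F)) = v.asIdeal →
        Pool.Agent.L7h15.BK.Deg1 v u := by
    intro v hv u hu
    obtain ⟨ψ₀⟩ := hsplit v (Or.inr hv)
    exact Pool.Agent.L7h15.BK.deg1_split ψ₀ hu
  have hcardG : Nat.card ((F ≃ₐ[K] F) →* ℂˣ) = Module.finrank K F := by
    let _ : CommGroup (F ≃ₐ[K] F) :=
      { (inferInstance : Group (F ≃ₐ[K] F)) with mul_comm := hcl.abelian }
    have e := CommGroup.card_monoidHom_of_hasEnoughRootsOfUnity (F ≃ₐ[K] F) ℂ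
    have e3 : Nat.card ((F ≃ₐ[K] F) →* ℂˣ) = Nat.card (F ≃ₐ[K] F) := e
    rw [e3]
    exact IsGalois.card_aut_eq_finrank K F
  have hTam : Tam F W = Tam K W ^ Module.finrank K F := by
    refine Pool.Agent.L7h15.BK.tam_up W hΔ hdeg1 fun v hv => ?_
    obtain ⟨ψ₀⟩ := hsplit v (Or.inr hv)
    rw [← hcardG]
    exact Pool.Agent.L7h15.BK.card_split hR hl ψ₀ fun ψ hvT => (hadm ψ v hvT).2.1 hv
  have hOm : Omega F W = Omega K W ^ Module.finrank K F := by
    unfold Omega
    rw [Pool.Agent.L7h15.BK.no_real h F, Pool.Agent.L7h15.BK.no_real h K,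
      Pool.Agent.L7h15.BK.nr_complex h F, Pool.Agent.L7h15.BK.nr_complex h K, Module.finrank_self,
      pow_zero, one_mul, one_mul, pow_one]
  have hminF : ∀ u : HeightOneSpectrum (𝓞 F), MinimalAt W u := by
    intro u
    by_cases hu : ((W.Δ : ℤ) : 𝓞 F) ∈ u.asIdeal
    · have hv := (Pool.Agent.L7h15.BK.int_mem (v := Pool.Agent.K4H55.BD.low (K := K) u) rfl _).1 hu
      exact Pool.Agent.L7h15.BK.min_up W (hdeg1 _ hv u rfl) (hmin _)
    · exact Pool.Agent.L7h15.BK.min_of_unit W hu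
  refine ⟨⟨halgK, halgF, hminF, hTam, hOm⟩, ⟨ΛK, ΛF, LK, LF, l5, l6, l7⟩, ?_⟩
  -- the formula
  set N := Module.finrank K F with hN
  have hN0 : N ≠ 0 := by rw [hk]; positivity
  have uniq : ∀ {M : Type} [Field M] [NumberField M] {f g : ℂ → ℂ}, IsLFunction M W f →
      IsLFunction M W g → f = g := by
    intro M _ _ f g hf hg
    exact Pool.Agent.L7h15.BK.ent_uniq hf.1 hg.1 fun s hs => (hf.2 s hs).unique (hg.2 s hs)
  have oK : Pool.Agent.L7h15.BK.TU ((Nat.card (base W K).toAffine.Point : ℕ) : ℂ) := by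
    have := Pool.Agent.L7h15.BK.TU.odd (m := (Nat.card (base W K).toAffine.Point : ℤ))
      (by exact_mod_cast halgK.2.1)
    simpa using this
  have oF : Pool.Agent.L7h15.BK.TU ((Nat.card (base W F).toAffine.Point : ℕ) : ℂ) := by
    have := Pool.Agent.L7h15.BK.TU.odd (m := (Nat.card (base W F).toAffine.Point : ℤ))
      (by exact_mod_cast halgF.2.1)
    simpa using this
  have sqd : ∀ (M : Type) [Field M] [NumberField M], ((√|(discr M : ℝ)| : ℝ) : ℂ) ≠ 0 := by
    intro M _ _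
    have h5 : (discr M : ℝ) ≠ 0 := by exact_mod_cast discr_ne_zero M
    have h6 : 0 < √|(discr M : ℝ)| := Real.sqrt_pos.2 (abs_pos.2 h5)
    exact_mod_cast h6.ne'
  have hrK : (rhs K W : ℂ) = (Omega K W : ℂ) * (Tam K W : ℂ) /
      (((√|(discr K : ℝ)| : ℝ) : ℂ) * (Nat.card (base W K).toAffine.Point : ℂ) ^ 2) := by
    unfold rhs
    rw [halgK.2.2, Nat.card_unique]
    push_cast
    rw [one_mul]
  have hrF : (rhs F W : ℂ) = ((Omega K W : ℂ) * (Tam K W : ℂ)) ^ N /
      (((√|(discr F : ℝ)| : ℝ) : ℂ) * (Nat.card (base W F).toAffine.Point : ℂ) ^ 2) := by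
    unfold rhs
    rw [halgF.2.2, Nat.card_unique, hTam, hOm]
    push_cast
    rw [one_mul, mul_pow]
  have cK0 : ((Nat.card (base W K).toAffine.Point : ℕ) : ℂ) ≠ 0 := by
    have : Nat.card (base W K).toAffine.Point ≠ 0 := by
      intro h0
      have h1 := halgK.2.1
      rw [h0] at h1
      exact absurd h1 (by decide)
    exact_mod_cast this
  have cF0 : ((Nat.card (base W F).toAffine.Point : ℕ) : ℂ) ≠ 0 := by
    have : Nat.card (base W F).toAffine.Point ≠ 0 := by
      intro h0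
      have h1 := halgF.2.1
      rw [h0] at h1
      exact absurd h1 (by decide)
    exact_mod_cast this
  have hsK := sqd K
  have hsF := sqd F
  have hiff : rhs F W ≠ 0 ↔ rhs K W ≠ 0 := by
    have e1 : rhs F W ≠ 0 ↔ (Omega K W : ℂ) * (Tam K W : ℂ) ≠ 0 := by
      rw [← Complex.ofReal_ne_zero, hrF, Ne, div_eq_zero_iff, not_or]
      constructor
      · intro h1 h2
        exact h1.1 (by rw [h2]; exact zero_pow hN0)
      · intro h1
        exact ⟨pow_ne_zero N h1, mul_ne_zero hsF (pow_ne_zero 2 cF0)⟩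
    have e2 : rhs K W ≠ 0 ↔ (Omega K W : ℂ) * (Tam K W : ℂ) ≠ 0 := by
      rw [← Complex.ofReal_ne_zero, hrK, Ne, div_eq_zero_iff, not_or]
      exact ⟨fun h1 => h1.1, fun h1 => ⟨h1, mul_ne_zero hsK (pow_ne_zero 2 cK0)⟩⟩
    rw [e1, e2]
  -- the relation of the quotients
  set R : ℂ := ΛF 1 * ((√|(discr F : ℝ)| : ℝ) : ℂ) /
        (ΛK 1 * ((√|(discr K : ℝ)| : ℝ) : ℂ)) ^ N with hRd
  have hrel : rhs K W ≠ 0 → ΛF 1 / (rhs F W : ℂ) =
      R * (ΛK 1 / (rhs K W : ℂ)) ^ N * ((Nat.card (base W F).toAffine.Point : ℂ) ^ 2 *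
        (((Nat.card (base W K).toAffine.Point : ℂ) ^ 2) ^ N)⁻¹) := by
    intro h0
    have hOT : (Omega K W : ℂ) * (Tam K W : ℂ) ≠ 0 := by
      intro h1
      apply h0
      have : (rhs K W : ℂ) = 0 := by rw [hrK, h1, zero_div]
      exact_mod_cast this
    rw [hRd, hrF, hrK]
    generalize (Omega K W : ℂ) * (Tam K W : ℂ) = P at hOT
    generalize ((√|(discr K : ℝ)| : ℝ) : ℂ) = SK at hsK
    generalize ((√|(discr F : ℝ)| : ℝ) : ℂ) = SF at hsF
    generalize ((Nat.card (base W K).toAffine.Point : ℕ) : ℂ) = CK at cK0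
    generalize ((Nat.card (base W F).toAffine.Point : ℕ) : ℂ) = CF at cF0
    rw [mul_pow, div_div_eq_mul_div, div_div_eq_mul_div, div_pow, mul_pow, mul_pow]
    field_simp
  have hTU : rhs K W ≠ 0 → (Pool.Agent.L7h15.BK.TU (ΛF 1 / (rhs F W : ℂ)) ↔
      Pool.Agent.L7h15.BK.TU (ΛK 1 / (rhs K W : ℂ))) := by
    intro h0
    have u1 : Pool.Agent.L7h15.BK.TU ((Nat.card (base W F).toAffine.Point : ℂ) ^ 2 *
        (((Nat.card (base W K).toAffine.Point : ℂ) ^ 2) ^ N)⁻¹) :=
      (oF.pow 2).mul ((oK.pow 2).pow N).inv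
    rw [hrel h0]
    constructor
    · intro h1
      have h2 := (h1.mul u1.inv).mul (Pool.Agent.L7h15.BK.TU.inv l7)
      refine Pool.Agent.L7h15.BK.TU.of_pow hN0 ?_
      have hR0 : R ≠ 0 := div_ne_zero (mul_ne_zero l6 hsF) (pow_ne_zero N (mul_ne_zero l5 hsK))
      have e : R * (ΛK 1 / (rhs K W : ℂ)) ^ N * ((Nat.card (base W F).toAffine.Point : ℂ) ^ 2 *
        (((Nat.card (base W K).toAffine.Point : ℂ) ^ 2) ^ N)⁻¹) *
        ((Nat.card (base W F).toAffine.Point : ℂ) ^ 2 *
        (((Nat.card (base W K).toAffine.Point : ℂ) ^ 2) ^ N)⁻¹)⁻¹ * R⁻¹ =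
        (ΛK 1 / (rhs K W : ℂ)) ^ N := by
        have hQ0 : ((Nat.card (base W F).toAffine.Point : ℂ) ^ 2 *
          (((Nat.card (base W K).toAffine.Point : ℂ) ^ 2) ^ N)⁻¹) ≠ 0 :=
          mul_ne_zero (pow_ne_zero 2 cF0) (inv_ne_zero (pow_ne_zero N (pow_ne_zero 2 cK0)))
        rw [mul_inv_cancel_right₀ hQ0, mul_comm R, mul_inv_cancel_right₀ hR0]
      rw [← e]
      exact h2
    · intro h1
      exact (Pool.Agent.L7h15.BK.TU.mul l7 (h1.pow N)).mul u1
  constructor
  · rintro ⟨Λ, h1, h2, h3, h4⟩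
    have e := uniq h1 LK
    subst e
    exact ⟨ΛF, LF, l6, hiff.2 h3, (hTU h3).2 h4⟩
  · rintro ⟨Λ, h1, h2, h3, h4⟩
    have e := uniq h1 LF
    subst e
    exact ⟨ΛK, LK, l5, hiff.1 h3, (hTU (hiff.1 h3)).1 h4⟩

end Pool.Agent.Results.MP_f50388_nt.TwoPartClassFields
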